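import Mathlib

set_option autoImplicit false

namespace Pool.Agent.H502Z.Leib

/-- index set of the structure constants in dimension six -/
abbrev I3 := Fin 6 × Fin 6 × Fin 6

/-- support of the base point -/
def bb (i j k : Fin 6) : Bool :=
  (i == 0 && j == 3 && k == 4) || (i == 0 && j == 2 && k == 5) || (i == 1 && j == 1 && k == 5) ||
  (i == 2 && j == 1 && k == 4) || (i == 3 && j == 2 && k == 5)

/-- The base point: e0 e3 = e4, e0 e2 = e5, e1 e1 = e5, e2 e1 = e4, e3 e2 = e5. -/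
def bz (t : I3) : ℂ := if bb t.1 t.2.1 t.2.2 then 1 else 0

/-- the polarised Leibniz expression -/
def Lb (μ ν : I3 → ℂ) (a b c l : Fin 6) : ℂ :=
  ∑ k, (μ (a, k, l) * ν (b, c, k) - μ (k, c, l) * ν (a, b, k) - μ (b, k, l) * ν (a, c, k))

/-- the coordinates that are frozen to zero -/
def bad (t : I3) : Bool :=
  (decide (t.1.val < 4) && decide (t.2.1.val < 4) && decide (4 ≤ t.2.2.val)) ||
  (t.1 == 2 && t.2.1 == 1) || (t.1 == 1 && t.2.1 == 1)

theorem e0014 (η : I3 → ℂ) : Lb bz η 0 0 1 4 + Lb η bz 0 0 1 4 = (-1) * η (0, 0, 2) := by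
  simp (decide := true) only [Lb, Fin.sum_univ_six, bz, if_true, if_false]
  ring

theorem e0015 (η : I3 → ℂ) : Lb bz η 0 0 1 5 + Lb η bz 0 0 1 5 = (-1) * η (0, 0, 1) := by
  simp (decide := true) only [Lb, Fin.sum_univ_six, bz, if_true, if_false]
  ring

theorem e0034 (η : I3 → ℂ) : Lb bz η 0 0 3 4 + Lb η bz 0 0 3 4 = (-1) * η (0, 0, 0) := by
  simp (decide := true) only [Lb, Fin.sum_univ_six, bz, if_true, if_false]
  ring

theorem e0104 (η : I3 → ℂ) : Lb bz η 0 1 0 4 + Lb η bz 0 1 0 4 = (1) * η (1, 0, 3) := by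
  simp (decide := true) only [Lb, Fin.sum_univ_six, bz, if_true, if_false]
  ring

theorem e0105 (η : I3 → ℂ) : Lb bz η 0 1 0 5 + Lb η bz 0 1 0 5 = (-1) * η (0, 0, 1) + (1) * η (1, 0, 2) := by
  simp (decide := true) only [Lb, Fin.sum_univ_six, bz, if_true, if_false]
  ring

theorem e0110 (η : I3 → ℂ) : Lb bz η 0 1 1 0 + Lb η bz 0 1 1 0 = (1) * η (0, 5, 0) := by
  simp (decide := true) only [Lb, Fin.sum_univ_six, bz, if_true, if_false]
  ring

theorem e0111 (η : I3 → ℂ) : Lb bz η 0 1 1 1 + Lb η bz 0 1 1 1 = (1) * η (0, 5, 1) := by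
  simp (decide := true) only [Lb, Fin.sum_univ_six, bz, if_true, if_false]
  ring

theorem e0112 (η : I3 → ℂ) : Lb bz η 0 1 1 2 + Lb η bz 0 1 1 2 = (1) * η (0, 5, 2) := by
  simp (decide := true) only [Lb, Fin.sum_univ_six, bz, if_true, if_false]
  ring

theorem e0113 (η : I3 → ℂ) : Lb bz η 0 1 1 3 + Lb η bz 0 1 1 3 = (1) * η (0, 5, 3) := by
  simp (decide := true) only [Lb, Fin.sum_univ_six, bz, if_true, if_false]
  ring

theorem e0120 (η : I3 → ℂ) : Lb bz η 0 1 2 0 + Lb η bz 0 1 2 0 = (-1) * η (1, 5, 0) := by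
  simp (decide := true) only [Lb, Fin.sum_univ_six, bz, if_true, if_false]
  ring

theorem e0121 (η : I3 → ℂ) : Lb bz η 0 1 2 1 + Lb η bz 0 1 2 1 = (-1) * η (1, 5, 1) := by
  simp (decide := true) only [Lb, Fin.sum_univ_six, bz, if_true, if_false]
  ring

theorem e0122 (η : I3 → ℂ) : Lb bz η 0 1 2 2 + Lb η bz 0 1 2 2 = (-1) * η (1, 5, 2) := by
  simp (decide := true) only [Lb, Fin.sum_univ_six, bz, if_true, if_false]
  ring

theorem e0123 (η : I3 → ℂ) : Lb bz η 0 1 2 3 + Lb η bz 0 1 2 3 = (-1) * η (1, 5, 3) := by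
  simp (decide := true) only [Lb, Fin.sum_univ_six, bz, if_true, if_false]
  ring

theorem e0130 (η : I3 → ℂ) : Lb bz η 0 1 3 0 + Lb η bz 0 1 3 0 = (-1) * η (1, 4, 0) := by
  simp (decide := true) only [Lb, Fin.sum_univ_six, bz, if_true, if_false]
  ring

theorem e0131 (η : I3 → ℂ) : Lb bz η 0 1 3 1 + Lb η bz 0 1 3 1 = (-1) * η (1, 4, 1) := by
  simp (decide := true) only [Lb, Fin.sum_univ_six, bz, if_true, if_false]
  ring

theorem e0132 (η : I3 → ℂ) : Lb bz η 0 1 3 2 + Lb η bz 0 1 3 2 = (-1) * η (1, 4, 2) := by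
  simp (decide := true) only [Lb, Fin.sum_univ_six, bz, if_true, if_false]
  ring

theorem e0133 (η : I3 → ℂ) : Lb bz η 0 1 3 3 + Lb η bz 0 1 3 3 = (-1) * η (1, 4, 3) := by
  simp (decide := true) only [Lb, Fin.sum_univ_six, bz, if_true, if_false]
  ring

theorem e0145 (η : I3 → ℂ) : Lb bz η 0 1 4 5 + Lb η bz 0 1 4 5 = (-1) * η (0, 4, 1) + (1) * η (1, 4, 2) := by
  simp (decide := true) only [Lb, Fin.sum_univ_six, bz, if_true, if_false]
  ring

theorem e0200 (η : I3 → ℂ) : Lb bz η 0 2 0 0 + Lb η bz 0 2 0 0 = (-1) * η (5, 0, 0) := by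
  simp (decide := true) only [Lb, Fin.sum_univ_six, bz, if_true, if_false]
  ring

theorem e0201 (η : I3 → ℂ) : Lb bz η 0 2 0 1 + Lb η bz 0 2 0 1 = (-1) * η (5, 0, 1) := by
  simp (decide := true) only [Lb, Fin.sum_univ_six, bz, if_true, if_false]
  ring

theorem e0202 (η : I3 → ℂ) : Lb bz η 0 2 0 2 + Lb η bz 0 2 0 2 = (-1) * η (5, 0, 2) := by
  simp (decide := true) only [Lb, Fin.sum_univ_six, bz, if_true, if_false]
  ring

theorem e0203 (η : I3 → ℂ) : Lb bz η 0 2 0 3 + Lb η bz 0 2 0 3 = (-1) * η (5, 0, 3) := by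
  simp (decide := true) only [Lb, Fin.sum_univ_six, bz, if_true, if_false]
  ring

theorem e0211 (η : I3 → ℂ) : Lb bz η 0 2 1 1 + Lb η bz 0 2 1 1 = (1) * η (0, 4, 1) + (-1) * η (5, 1, 1) := by
  simp (decide := true) only [Lb, Fin.sum_univ_six, bz, if_true, if_false]
  ring

theorem e0240 (η : I3 → ℂ) : Lb bz η 0 2 4 0 + Lb η bz 0 2 4 0 = (-1) * η (5, 4, 0) := by
  simp (decide := true) only [Lb, Fin.sum_univ_six, bz, if_true, if_false]
  ring

theorem e0241 (η : I3 → ℂ) : Lb bz η 0 2 4 1 + Lb η bz 0 2 4 1 = (-1) * η (5, 4, 1) := by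
  simp (decide := true) only [Lb, Fin.sum_univ_six, bz, if_true, if_false]
  ring

theorem e0242 (η : I3 → ℂ) : Lb bz η 0 2 4 2 + Lb η bz 0 2 4 2 = (-1) * η (5, 4, 2) := by
  simp (decide := true) only [Lb, Fin.sum_univ_six, bz, if_true, if_false]
  ring

theorem e0243 (η : I3 → ℂ) : Lb bz η 0 2 4 3 + Lb η bz 0 2 4 3 = (-1) * η (5, 4, 3) := by
  simp (decide := true) only [Lb, Fin.sum_univ_six, bz, if_true, if_false]
  ring

theorem e0250 (η : I3 → ℂ) : Lb bz η 0 2 5 0 + Lb η bz 0 2 5 0 = (-1) * η (5, 5, 0) := by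
  simp (decide := true) only [Lb, Fin.sum_univ_six, bz, if_true, if_false]
  ring

theorem e0251 (η : I3 → ℂ) : Lb bz η 0 2 5 1 + Lb η bz 0 2 5 1 = (-1) * η (5, 5, 1) := by
  simp (decide := true) only [Lb, Fin.sum_univ_six, bz, if_true, if_false]
  ring

theorem e0252 (η : I3 → ℂ) : Lb bz η 0 2 5 2 + Lb η bz 0 2 5 2 = (-1) * η (5, 5, 2) := by
  simp (decide := true) only [Lb, Fin.sum_univ_six, bz, if_true, if_false]
  ring

theorem e0253 (η : I3 → ℂ) : Lb bz η 0 2 5 3 + Lb η bz 0 2 5 3 = (-1) * η (5, 5, 3) := by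
  simp (decide := true) only [Lb, Fin.sum_univ_six, bz, if_true, if_false]
  ring

theorem e0300 (η : I3 → ℂ) : Lb bz η 0 3 0 0 + Lb η bz 0 3 0 0 = (-1) * η (4, 0, 0) := by
  simp (decide := true) only [Lb, Fin.sum_univ_six, bz, if_true, if_false]
  ring

theorem e0301 (η : I3 → ℂ) : Lb bz η 0 3 0 1 + Lb η bz 0 3 0 1 = (-1) * η (4, 0, 1) := by
  simp (decide := true) only [Lb, Fin.sum_univ_six, bz, if_true, if_false]
  ring

theorem e0302 (η : I3 → ℂ) : Lb bz η 0 3 0 2 + Lb η bz 0 3 0 2 = (-1) * η (4, 0, 2) := by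
  simp (decide := true) only [Lb, Fin.sum_univ_six, bz, if_true, if_false]
  ring

theorem e0303 (η : I3 → ℂ) : Lb bz η 0 3 0 3 + Lb η bz 0 3 0 3 = (-1) * η (4, 0, 3) := by
  simp (decide := true) only [Lb, Fin.sum_univ_six, bz, if_true, if_false]
  ring

theorem e0310 (η : I3 → ℂ) : Lb bz η 0 3 1 0 + Lb η bz 0 3 1 0 = (-1) * η (4, 1, 0) := by
  simp (decide := true) only [Lb, Fin.sum_univ_six, bz, if_true, if_false]
  ring

theorem e0311 (η : I3 → ℂ) : Lb bz η 0 3 1 1 + Lb η bz 0 3 1 1 = (-1) * η (4, 1, 1) := by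
  simp (decide := true) only [Lb, Fin.sum_univ_six, bz, if_true, if_false]
  ring

theorem e0312 (η : I3 → ℂ) : Lb bz η 0 3 1 2 + Lb η bz 0 3 1 2 = (-1) * η (4, 1, 2) := by
  simp (decide := true) only [Lb, Fin.sum_univ_six, bz, if_true, if_false]
  ring

theorem e0313 (η : I3 → ℂ) : Lb bz η 0 3 1 3 + Lb η bz 0 3 1 3 = (-1) * η (4, 1, 3) := by
  simp (decide := true) only [Lb, Fin.sum_univ_six, bz, if_true, if_false]
  ring

theorem e0340 (η : I3 → ℂ) : Lb bz η 0 3 4 0 + Lb η bz 0 3 4 0 = (-1) * η (4, 4, 0) := by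
  simp (decide := true) only [Lb, Fin.sum_univ_six, bz, if_true, if_false]
  ring

theorem e0341 (η : I3 → ℂ) : Lb bz η 0 3 4 1 + Lb η bz 0 3 4 1 = (-1) * η (4, 4, 1) := by
  simp (decide := true) only [Lb, Fin.sum_univ_six, bz, if_true, if_false]
  ring

theorem e0342 (η : I3 → ℂ) : Lb bz η 0 3 4 2 + Lb η bz 0 3 4 2 = (-1) * η (4, 4, 2) := by
  simp (decide := true) only [Lb, Fin.sum_univ_six, bz, if_true, if_false]
  ring

theorem e0343 (η : I3 → ℂ) : Lb bz η 0 3 4 3 + Lb η bz 0 3 4 3 = (-1) * η (4, 4, 3) := by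
  simp (decide := true) only [Lb, Fin.sum_univ_six, bz, if_true, if_false]
  ring

theorem e0350 (η : I3 → ℂ) : Lb bz η 0 3 5 0 + Lb η bz 0 3 5 0 = (-1) * η (4, 5, 0) := by
  simp (decide := true) only [Lb, Fin.sum_univ_six, bz, if_true, if_false]
  ring

theorem e0351 (η : I3 → ℂ) : Lb bz η 0 3 5 1 + Lb η bz 0 3 5 1 = (-1) * η (4, 5, 1) := by
  simp (decide := true) only [Lb, Fin.sum_univ_six, bz, if_true, if_false]
  ring

theorem e0352 (η : I3 → ℂ) : Lb bz η 0 3 5 2 + Lb η bz 0 3 5 2 = (-1) * η (4, 5, 2) := by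
  simp (decide := true) only [Lb, Fin.sum_univ_six, bz, if_true, if_false]
  ring

theorem e0353 (η : I3 → ℂ) : Lb bz η 0 3 5 3 + Lb η bz 0 3 5 3 = (-1) * η (4, 5, 3) := by
  simp (decide := true) only [Lb, Fin.sum_univ_six, bz, if_true, if_false]
  ring

theorem e0414 (η : I3 → ℂ) : Lb bz η 0 4 1 4 + Lb η bz 0 4 1 4 = (-1) * η (0, 4, 2) + (1) * η (4, 1, 3) := by
  simp (decide := true) only [Lb, Fin.sum_univ_six, bz, if_true, if_false]
  ring

theorem e0514 (η : I3 → ℂ) : Lb bz η 0 5 1 4 + Lb η bz 0 5 1 4 = (-1) * η (0, 5, 2) + (1) * η (5, 1, 3) := by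
  simp (decide := true) only [Lb, Fin.sum_univ_six, bz, if_true, if_false]
  ring

theorem e0515 (η : I3 → ℂ) : Lb bz η 0 5 1 5 + Lb η bz 0 5 1 5 = (-1) * η (0, 5, 1) + (1) * η (5, 1, 2) := by
  simp (decide := true) only [Lb, Fin.sum_univ_six, bz, if_true, if_false]
  ring

theorem e1014 (η : I3 → ℂ) : Lb bz η 1 0 1 4 + Lb η bz 1 0 1 4 = (-1) * η (1, 0, 2) + (-1) * η (1, 1, 3) + (-1) * η (0, 5, 4) := by
  simp (decide := true) only [Lb, Fin.sum_univ_six, bz, if_true, if_false]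
  ring

theorem e1104 (η : I3 → ℂ) : Lb bz η 1 1 0 4 + Lb η bz 1 1 0 4 = (-1) * η (5, 0, 4) := by
  simp (decide := true) only [Lb, Fin.sum_univ_six, bz, if_true, if_false]
  ring

theorem e1105 (η : I3 → ℂ) : Lb bz η 1 1 0 5 + Lb η bz 1 1 0 5 = (-1) * η (5, 0, 5) := by
  simp (decide := true) only [Lb, Fin.sum_univ_six, bz, if_true, if_false]
  ring

theorem e1110 (η : I3 → ℂ) : Lb bz η 1 1 1 0 + Lb η bz 1 1 1 0 = (-1) * η (5, 1, 0) := by
  simp (decide := true) only [Lb, Fin.sum_univ_six, bz, if_true, if_false]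
  ring

theorem e1114 (η : I3 → ℂ) : Lb bz η 1 1 1 4 + Lb η bz 1 1 1 4 = (-1) * η (1, 1, 2) + (-1) * η (5, 1, 4) := by
  simp (decide := true) only [Lb, Fin.sum_univ_six, bz, if_true, if_false]
  ring

theorem e1115 (η : I3 → ℂ) : Lb bz η 1 1 1 5 + Lb η bz 1 1 1 5 = (-1) * η (1, 1, 1) + (-1) * η (5, 1, 5) := by
  simp (decide := true) only [Lb, Fin.sum_univ_six, bz, if_true, if_false]
  ring

theorem e1120 (η : I3 → ℂ) : Lb bz η 1 1 2 0 + Lb η bz 1 1 2 0 = (-1) * η (5, 2, 0) := by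
  simp (decide := true) only [Lb, Fin.sum_univ_six, bz, if_true, if_false]
  ring

theorem e1121 (η : I3 → ℂ) : Lb bz η 1 1 2 1 + Lb η bz 1 1 2 1 = (-1) * η (5, 2, 1) := by
  simp (decide := true) only [Lb, Fin.sum_univ_six, bz, if_true, if_false]
  ring

theorem e1122 (η : I3 → ℂ) : Lb bz η 1 1 2 2 + Lb η bz 1 1 2 2 = (-1) * η (5, 2, 2) := by
  simp (decide := true) only [Lb, Fin.sum_univ_six, bz, if_true, if_false]
  ring

theorem e1123 (η : I3 → ℂ) : Lb bz η 1 1 2 3 + Lb η bz 1 1 2 3 = (-1) * η (5, 2, 3) := by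
  simp (decide := true) only [Lb, Fin.sum_univ_six, bz, if_true, if_false]
  ring

theorem e1124 (η : I3 → ℂ) : Lb bz η 1 1 2 4 + Lb η bz 1 1 2 4 = (-1) * η (5, 2, 4) := by
  simp (decide := true) only [Lb, Fin.sum_univ_six, bz, if_true, if_false]
  ring

theorem e1125 (η : I3 → ℂ) : Lb bz η 1 1 2 5 + Lb η bz 1 1 2 5 = (-1) * η (1, 1, 0) + (-1) * η (1, 1, 3) + (-1) * η (5, 2, 5) := by
  simp (decide := true) only [Lb, Fin.sum_univ_six, bz, if_true, if_false]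
  ring

theorem e1130 (η : I3 → ℂ) : Lb bz η 1 1 3 0 + Lb η bz 1 1 3 0 = (-1) * η (5, 3, 0) := by
  simp (decide := true) only [Lb, Fin.sum_univ_six, bz, if_true, if_false]
  ring

theorem e1131 (η : I3 → ℂ) : Lb bz η 1 1 3 1 + Lb η bz 1 1 3 1 = (-1) * η (5, 3, 1) := by
  simp (decide := true) only [Lb, Fin.sum_univ_six, bz, if_true, if_false]
  ring

theorem e1132 (η : I3 → ℂ) : Lb bz η 1 1 3 2 + Lb η bz 1 1 3 2 = (-1) * η (5, 3, 2) := by
  simp (decide := true) only [Lb, Fin.sum_univ_six, bz, if_true, if_false]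
  ring

theorem e1133 (η : I3 → ℂ) : Lb bz η 1 1 3 3 + Lb η bz 1 1 3 3 = (-1) * η (5, 3, 3) := by
  simp (decide := true) only [Lb, Fin.sum_univ_six, bz, if_true, if_false]
  ring

theorem e1134 (η : I3 → ℂ) : Lb bz η 1 1 3 4 + Lb η bz 1 1 3 4 = (-1) * η (1, 1, 0) + (-1) * η (5, 3, 4) := by
  simp (decide := true) only [Lb, Fin.sum_univ_six, bz, if_true, if_false]
  ring

theorem e1135 (η : I3 → ℂ) : Lb bz η 1 1 3 5 + Lb η bz 1 1 3 5 = (-1) * η (5, 3, 5) := by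
  simp (decide := true) only [Lb, Fin.sum_univ_six, bz, if_true, if_false]
  ring

theorem e1144 (η : I3 → ℂ) : Lb bz η 1 1 4 4 + Lb η bz 1 1 4 4 = (-1) * η (5, 4, 4) := by
  simp (decide := true) only [Lb, Fin.sum_univ_six, bz, if_true, if_false]
  ring

theorem e1145 (η : I3 → ℂ) : Lb bz η 1 1 4 5 + Lb η bz 1 1 4 5 = (-1) * η (5, 4, 5) := by
  simp (decide := true) only [Lb, Fin.sum_univ_six, bz, if_true, if_false]
  ring

theorem e1154 (η : I3 → ℂ) : Lb bz η 1 1 5 4 + Lb η bz 1 1 5 4 = (-1) * η (5, 5, 4) := by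
  simp (decide := true) only [Lb, Fin.sum_univ_six, bz, if_true, if_false]
  ring

theorem e1155 (η : I3 → ℂ) : Lb bz η 1 1 5 5 + Lb η bz 1 1 5 5 = (-1) * η (5, 5, 5) := by
  simp (decide := true) only [Lb, Fin.sum_univ_six, bz, if_true, if_false]
  ring

theorem e1204 (η : I3 → ℂ) : Lb bz η 1 2 0 4 + Lb η bz 1 2 0 4 = (-1) * η (1, 0, 1) := by
  simp (decide := true) only [Lb, Fin.sum_univ_six, bz, if_true, if_false]
  ring

theorem e1205 (η : I3 → ℂ) : Lb bz η 1 2 0 5 + Lb η bz 1 2 0 5 = (1) * η (2, 0, 1) := by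
  simp (decide := true) only [Lb, Fin.sum_univ_six, bz, if_true, if_false]
  ring

theorem e1210 (η : I3 → ℂ) : Lb bz η 1 2 1 0 + Lb η bz 1 2 1 0 = (1) * η (1, 4, 0) + (-1) * η (2, 5, 0) := by
  simp (decide := true) only [Lb, Fin.sum_univ_six, bz, if_true, if_false]
  ring

theorem e1211 (η : I3 → ℂ) : Lb bz η 1 2 1 1 + Lb η bz 1 2 1 1 = (1) * η (1, 4, 1) + (-1) * η (2, 5, 1) := by
  simp (decide := true) only [Lb, Fin.sum_univ_six, bz, if_true, if_false]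
  ring

theorem e1212 (η : I3 → ℂ) : Lb bz η 1 2 1 2 + Lb η bz 1 2 1 2 = (1) * η (1, 4, 2) + (-1) * η (2, 5, 2) := by
  simp (decide := true) only [Lb, Fin.sum_univ_six, bz, if_true, if_false]
  ring

theorem e1213 (η : I3 → ℂ) : Lb bz η 1 2 1 3 + Lb η bz 1 2 1 3 = (1) * η (1, 4, 3) + (-1) * η (2, 5, 3) := by
  simp (decide := true) only [Lb, Fin.sum_univ_six, bz, if_true, if_false]
  ring

theorem e1224 (η : I3 → ℂ) : Lb bz η 1 2 2 4 + Lb η bz 1 2 2 4 = (-1) * η (1, 2, 1) := by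
  simp (decide := true) only [Lb, Fin.sum_univ_six, bz, if_true, if_false]
  ring

theorem e1235 (η : I3 → ℂ) : Lb bz η 1 2 3 5 + Lb η bz 1 2 3 5 = (1) * η (2, 3, 1) := by
  simp (decide := true) only [Lb, Fin.sum_univ_six, bz, if_true, if_false]
  ring

theorem e1245 (η : I3 → ℂ) : Lb bz η 1 2 4 5 + Lb η bz 1 2 4 5 = (1) * η (2, 4, 1) := by
  simp (decide := true) only [Lb, Fin.sum_univ_six, bz, if_true, if_false]
  ring

theorem e1305 (η : I3 → ℂ) : Lb bz η 1 3 0 5 + Lb η bz 1 3 0 5 = (1) * η (3, 0, 1) + (-1) * η (1, 0, 2) := by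
  simp (decide := true) only [Lb, Fin.sum_univ_six, bz, if_true, if_false]
  ring

theorem e1310 (η : I3 → ℂ) : Lb bz η 1 3 1 0 + Lb η bz 1 3 1 0 = (-1) * η (3, 5, 0) := by
  simp (decide := true) only [Lb, Fin.sum_univ_six, bz, if_true, if_false]
  ring

theorem e1311 (η : I3 → ℂ) : Lb bz η 1 3 1 1 + Lb η bz 1 3 1 1 = (-1) * η (3, 5, 1) := by
  simp (decide := true) only [Lb, Fin.sum_univ_six, bz, if_true, if_false]
  ring

theorem e1312 (η : I3 → ℂ) : Lb bz η 1 3 1 2 + Lb η bz 1 3 1 2 = (-1) * η (3, 5, 2) := by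
  simp (decide := true) only [Lb, Fin.sum_univ_six, bz, if_true, if_false]
  ring

theorem e1313 (η : I3 → ℂ) : Lb bz η 1 3 1 3 + Lb η bz 1 3 1 3 = (-1) * η (3, 5, 3) := by
  simp (decide := true) only [Lb, Fin.sum_univ_six, bz, if_true, if_false]
  ring

theorem e1324 (η : I3 → ℂ) : Lb bz η 1 3 2 4 + Lb η bz 1 3 2 4 = (1) * η (1, 5, 4) := by
  simp (decide := true) only [Lb, Fin.sum_univ_six, bz, if_true, if_false]
  ring

theorem e1334 (η : I3 → ℂ) : Lb bz η 1 3 3 4 + Lb η bz 1 3 3 4 = (-1) * η (1, 3, 0) := by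
  simp (decide := true) only [Lb, Fin.sum_univ_six, bz, if_true, if_false]
  ring

theorem e1345 (η : I3 → ℂ) : Lb bz η 1 3 4 5 + Lb η bz 1 3 4 5 = (1) * η (3, 4, 1) + (-1) * η (1, 4, 2) := by
  simp (decide := true) only [Lb, Fin.sum_univ_six, bz, if_true, if_false]
  ring

theorem e1414 (η : I3 → ℂ) : Lb bz η 1 4 1 4 + Lb η bz 1 4 1 4 = (-1) * η (1, 4, 2) + (-1) * η (4, 5, 4) := by
  simp (decide := true) only [Lb, Fin.sum_univ_six, bz, if_true, if_false]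
  ring

theorem e1415 (η : I3 → ℂ) : Lb bz η 1 4 1 5 + Lb η bz 1 4 1 5 = (1) * η (4, 1, 1) + (-1) * η (1, 4, 1) + (-1) * η (4, 5, 5) := by
  simp (decide := true) only [Lb, Fin.sum_univ_six, bz, if_true, if_false]
  ring

theorem e1425 (η : I3 → ℂ) : Lb bz η 1 4 2 5 + Lb η bz 1 4 2 5 = (-1) * η (1, 4, 0) + (1) * η (4, 2, 1) + (-1) * η (1, 4, 3) := by
  simp (decide := true) only [Lb, Fin.sum_univ_six, bz, if_true, if_false]
  ring

theorem e1435 (η : I3 → ℂ) : Lb bz η 1 4 3 5 + Lb η bz 1 4 3 5 = (1) * η (4, 3, 1) := by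
  simp (decide := true) only [Lb, Fin.sum_univ_six, bz, if_true, if_false]
  ring

theorem e2004 (η : I3 → ℂ) : Lb bz η 2 0 0 4 + Lb η bz 2 0 0 4 = (1) * η (0, 0, 1) + (-1) * η (2, 0, 3) := by
  simp (decide := true) only [Lb, Fin.sum_univ_six, bz, if_true, if_false]
  ring

theorem e2005 (η : I3 → ℂ) : Lb bz η 2 0 0 5 + Lb η bz 2 0 0 5 = (-1) * η (2, 0, 2) := by
  simp (decide := true) only [Lb, Fin.sum_univ_six, bz, if_true, if_false]
  ring

theorem e2010 (η : I3 → ℂ) : Lb bz η 2 0 1 0 + Lb η bz 2 0 1 0 = (-1) * η (0, 4, 0) := by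
  simp (decide := true) only [Lb, Fin.sum_univ_six, bz, if_true, if_false]
  ring

theorem e2013 (η : I3 → ℂ) : Lb bz η 2 0 1 3 + Lb η bz 2 0 1 3 = (-1) * η (0, 4, 3) := by
  simp (decide := true) only [Lb, Fin.sum_univ_six, bz, if_true, if_false]
  ring

theorem e2015 (η : I3 → ℂ) : Lb bz η 2 0 1 5 + Lb η bz 2 0 1 5 = (-1) * η (2, 0, 1) + (-1) * η (2, 1, 2) + (-1) * η (0, 4, 5) := by
  simp (decide := true) only [Lb, Fin.sum_univ_six, bz, if_true, if_false]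
  ring

theorem e2030 (η : I3 → ℂ) : Lb bz η 2 0 3 0 + Lb η bz 2 0 3 0 = (1) * η (2, 4, 0) := by
  simp (decide := true) only [Lb, Fin.sum_univ_six, bz, if_true, if_false]
  ring

theorem e2032 (η : I3 → ℂ) : Lb bz η 2 0 3 2 + Lb η bz 2 0 3 2 = (1) * η (2, 4, 2) := by
  simp (decide := true) only [Lb, Fin.sum_univ_six, bz, if_true, if_false]
  ring

theorem e2033 (η : I3 → ℂ) : Lb bz η 2 0 3 3 + Lb η bz 2 0 3 3 = (1) * η (2, 4, 3) := by
  simp (decide := true) only [Lb, Fin.sum_univ_six, bz, if_true, if_false]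
  ring

theorem e2104 (η : I3 → ℂ) : Lb bz η 2 1 0 4 + Lb η bz 2 1 0 4 = (1) * η (1, 0, 1) + (-1) * η (4, 0, 4) := by
  simp (decide := true) only [Lb, Fin.sum_univ_six, bz, if_true, if_false]
  ring

theorem e2105 (η : I3 → ℂ) : Lb bz η 2 1 0 5 + Lb η bz 2 1 0 5 = (-1) * η (2, 0, 1) + (-1) * η (4, 0, 5) := by
  simp (decide := true) only [Lb, Fin.sum_univ_six, bz, if_true, if_false]
  ring

theorem e2120 (η : I3 → ℂ) : Lb bz η 2 1 2 0 + Lb η bz 2 1 2 0 = (-1) * η (4, 2, 0) := by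
  simp (decide := true) only [Lb, Fin.sum_univ_six, bz, if_true, if_false]
  ring

theorem e2122 (η : I3 → ℂ) : Lb bz η 2 1 2 2 + Lb η bz 2 1 2 2 = (-1) * η (4, 2, 2) := by
  simp (decide := true) only [Lb, Fin.sum_univ_six, bz, if_true, if_false]
  ring

theorem e2123 (η : I3 → ℂ) : Lb bz η 2 1 2 3 + Lb η bz 2 1 2 3 = (-1) * η (4, 2, 3) := by
  simp (decide := true) only [Lb, Fin.sum_univ_six, bz, if_true, if_false]
  ring

theorem e2124 (η : I3 → ℂ) : Lb bz η 2 1 2 4 + Lb η bz 2 1 2 4 = (1) * η (1, 2, 1) + (-1) * η (4, 2, 4) := by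
  simp (decide := true) only [Lb, Fin.sum_univ_six, bz, if_true, if_false]
  ring

theorem e2130 (η : I3 → ℂ) : Lb bz η 2 1 3 0 + Lb η bz 2 1 3 0 = (-1) * η (4, 3, 0) := by
  simp (decide := true) only [Lb, Fin.sum_univ_six, bz, if_true, if_false]
  ring

theorem e2132 (η : I3 → ℂ) : Lb bz η 2 1 3 2 + Lb η bz 2 1 3 2 = (-1) * η (4, 3, 2) := by
  simp (decide := true) only [Lb, Fin.sum_univ_six, bz, if_true, if_false]
  ring

theorem e2133 (η : I3 → ℂ) : Lb bz η 2 1 3 3 + Lb η bz 2 1 3 3 = (-1) * η (4, 3, 3) := by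
  simp (decide := true) only [Lb, Fin.sum_univ_six, bz, if_true, if_false]
  ring

theorem e2135 (η : I3 → ℂ) : Lb bz η 2 1 3 5 + Lb η bz 2 1 3 5 = (-1) * η (2, 3, 1) + (-1) * η (4, 3, 5) := by
  simp (decide := true) only [Lb, Fin.sum_univ_six, bz, if_true, if_false]
  ring

theorem e2144 (η : I3 → ℂ) : Lb bz η 2 1 4 4 + Lb η bz 2 1 4 4 = (1) * η (1, 4, 1) + (-1) * η (4, 4, 4) := by
  simp (decide := true) only [Lb, Fin.sum_univ_six, bz, if_true, if_false]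
  ring

theorem e2145 (η : I3 → ℂ) : Lb bz η 2 1 4 5 + Lb η bz 2 1 4 5 = (-1) * η (2, 4, 1) + (-1) * η (4, 4, 5) := by
  simp (decide := true) only [Lb, Fin.sum_univ_six, bz, if_true, if_false]
  ring

theorem e2214 (η : I3 → ℂ) : Lb bz η 2 2 1 4 + Lb η bz 2 2 1 4 = (-1) * η (2, 2, 2) := by
  simp (decide := true) only [Lb, Fin.sum_univ_six, bz, if_true, if_false]
  ring

theorem e2215 (η : I3 → ℂ) : Lb bz η 2 2 1 5 + Lb η bz 2 2 1 5 = (-1) * η (2, 2, 1) := by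
  simp (decide := true) only [Lb, Fin.sum_univ_six, bz, if_true, if_false]
  ring

theorem e2234 (η : I3 → ℂ) : Lb bz η 2 2 3 4 + Lb η bz 2 2 3 4 = (-1) * η (2, 2, 0) := by
  simp (decide := true) only [Lb, Fin.sum_univ_six, bz, if_true, if_false]
  ring

theorem e2310 (η : I3 → ℂ) : Lb bz η 2 3 1 0 + Lb η bz 2 3 1 0 = (-1) * η (3, 4, 0) := by
  simp (decide := true) only [Lb, Fin.sum_univ_six, bz, if_true, if_false]
  ring

theorem e2312 (η : I3 → ℂ) : Lb bz η 2 3 1 2 + Lb η bz 2 3 1 2 = (-1) * η (3, 4, 2) := by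
  simp (decide := true) only [Lb, Fin.sum_univ_six, bz, if_true, if_false]
  ring

theorem e2313 (η : I3 → ℂ) : Lb bz η 2 3 1 3 + Lb η bz 2 3 1 3 = (-1) * η (3, 4, 3) := by
  simp (decide := true) only [Lb, Fin.sum_univ_six, bz, if_true, if_false]
  ring

theorem e2315 (η : I3 → ℂ) : Lb bz η 2 3 1 5 + Lb η bz 2 3 1 5 = (-1) * η (2, 3, 1) + (-1) * η (2, 1, 2) + (-1) * η (3, 4, 5) := by
  simp (decide := true) only [Lb, Fin.sum_univ_six, bz, if_true, if_false]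
  ring

theorem e2335 (η : I3 → ℂ) : Lb bz η 2 3 3 5 + Lb η bz 2 3 3 5 = (-1) * η (2, 3, 2) := by
  simp (decide := true) only [Lb, Fin.sum_univ_six, bz, if_true, if_false]
  ring

theorem e3004 (η : I3 → ℂ) : Lb bz η 3 0 0 4 + Lb η bz 3 0 0 4 = (-1) * η (3, 0, 3) := by
  simp (decide := true) only [Lb, Fin.sum_univ_six, bz, if_true, if_false]
  ring

theorem e3005 (η : I3 → ℂ) : Lb bz η 3 0 0 5 + Lb η bz 3 0 0 5 = (1) * η (0, 0, 2) + (-1) * η (3, 0, 2) := by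
  simp (decide := true) only [Lb, Fin.sum_univ_six, bz, if_true, if_false]
  ring

theorem e3014 (η : I3 → ℂ) : Lb bz η 3 0 1 4 + Lb η bz 3 0 1 4 = (-1) * η (3, 0, 2) + (-1) * η (3, 1, 3) := by
  simp (decide := true) only [Lb, Fin.sum_univ_six, bz, if_true, if_false]
  ring

theorem e3134 (η : I3 → ℂ) : Lb bz η 3 1 3 4 + Lb η bz 3 1 3 4 = (-1) * η (3, 1, 0) := by
  simp (decide := true) only [Lb, Fin.sum_univ_six, bz, if_true, if_false]
  ring

theorem e3215 (η : I3 → ℂ) : Lb bz η 3 2 1 5 + Lb η bz 3 2 1 5 = (-1) * η (3, 2, 1) + (1) * η (2, 1, 2) + (1) * η (3, 4, 5) + (-1) * η (5, 1, 5) := by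
  simp (decide := true) only [Lb, Fin.sum_univ_six, bz, if_true, if_false]
  ring

theorem e3224 (η : I3 → ℂ) : Lb bz η 3 2 2 4 + Lb η bz 3 2 2 4 = (-1) * η (3, 2, 1) + (-1) * η (5, 2, 4) + (-1) * η (2, 5, 4) := by
  simp (decide := true) only [Lb, Fin.sum_univ_six, bz, if_true, if_false]
  ring

theorem e3314 (η : I3 → ℂ) : Lb bz η 3 3 1 4 + Lb η bz 3 3 1 4 = (-1) * η (3, 3, 2) := by
  simp (decide := true) only [Lb, Fin.sum_univ_six, bz, if_true, if_false]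
  ring

theorem e3315 (η : I3 → ℂ) : Lb bz η 3 3 1 5 + Lb η bz 3 3 1 5 = (-1) * η (3, 3, 1) := by
  simp (decide := true) only [Lb, Fin.sum_univ_six, bz, if_true, if_false]
  ring

theorem e3334 (η : I3 → ℂ) : Lb bz η 3 3 3 4 + Lb η bz 3 3 3 4 = (-1) * η (3, 3, 0) := by
  simp (decide := true) only [Lb, Fin.sum_univ_six, bz, if_true, if_false]
  ring

theorem e0025 (η : I3 → ℂ) : Lb bz η 0 0 2 5 + Lb η bz 0 0 2 5 = (-1) * η (0, 0, 0) + (-1) * η (0, 0, 3) := by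
  simp (decide := true) only [Lb, Fin.sum_univ_six, bz, if_true, if_false]
  ring

theorem e0114 (η : I3 → ℂ) : Lb bz η 0 1 1 4 + Lb η bz 0 1 1 4 = (-1) * η (0, 1, 2) + (1) * η (1, 1, 3) + (1) * η (0, 5, 4) := by
  simp (decide := true) only [Lb, Fin.sum_univ_six, bz, if_true, if_false]
  ring

theorem e0124 (η : I3 → ℂ) : Lb bz η 0 1 2 4 + Lb η bz 0 1 2 4 = (1) * η (1, 2, 3) + (-1) * η (1, 5, 4) := by
  simp (decide := true) only [Lb, Fin.sum_univ_six, bz, if_true, if_false]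
  ring

theorem e0215 (η : I3 → ℂ) : Lb bz η 0 2 1 5 + Lb η bz 0 2 1 5 = (-1) * η (0, 2, 1) + (1) * η (2, 1, 2) + (1) * η (0, 4, 5) + (-1) * η (5, 1, 5) := by
  simp (decide := true) only [Lb, Fin.sum_univ_six, bz, if_true, if_false]
  ring

theorem e0224 (η : I3 → ℂ) : Lb bz η 0 2 2 4 + Lb η bz 0 2 2 4 = (-1) * η (0, 2, 1) + (1) * η (2, 2, 3) + (-1) * η (5, 2, 4) + (-1) * η (2, 5, 4) := by
  simp (decide := true) only [Lb, Fin.sum_univ_six, bz, if_true, if_false]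
  ring

theorem e0235 (η : I3 → ℂ) : Lb bz η 0 2 3 5 + Lb η bz 0 2 3 5 = (1) * η (2, 3, 2) + (-1) * η (2, 4, 5) + (-1) * η (5, 3, 5) := by
  simp (decide := true) only [Lb, Fin.sum_univ_six, bz, if_true, if_false]
  ring

theorem e0335 (η : I3 → ℂ) : Lb bz η 0 3 3 5 + Lb η bz 0 3 3 5 = (1) * η (3, 3, 2) + (-1) * η (0, 3, 2) + (-1) * η (4, 3, 5) + (-1) * η (3, 4, 5) := by
  simp (decide := true) only [Lb, Fin.sum_univ_six, bz, if_true, if_false]
  ring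

theorem e1225 (η : I3 → ℂ) : Lb bz η 1 2 2 5 + Lb η bz 1 2 2 5 = (-1) * η (1, 2, 0) + (1) * η (2, 2, 1) + (-1) * η (1, 2, 3) := by
  simp (decide := true) only [Lb, Fin.sum_univ_six, bz, if_true, if_false]
  ring

theorem e1234 (η : I3 → ℂ) : Lb bz η 1 2 3 4 + Lb η bz 1 2 3 4 = (-1) * η (1, 2, 0) + (-1) * η (1, 3, 1) := by
  simp (decide := true) only [Lb, Fin.sum_univ_six, bz, if_true, if_false]
  ring

theorem e1335 (η : I3 → ℂ) : Lb bz η 1 3 3 5 + Lb η bz 1 3 3 5 = (1) * η (3, 3, 1) + (-1) * η (1, 3, 2) := by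
  simp (decide := true) only [Lb, Fin.sum_univ_six, bz, if_true, if_false]
  ring

theorem e2125 (η : I3 → ℂ) : Lb bz η 2 1 2 5 + Lb η bz 2 1 2 5 = (-1) * η (2, 1, 0) + (-1) * η (2, 2, 1) + (-1) * η (2, 1, 3) + (-1) * η (4, 2, 5) := by
  simp (decide := true) only [Lb, Fin.sum_univ_six, bz, if_true, if_false]
  ring

theorem e2134 (η : I3 → ℂ) : Lb bz η 2 1 3 4 + Lb η bz 2 1 3 4 = (-1) * η (2, 1, 0) + (1) * η (1, 3, 1) + (-1) * η (4, 3, 4) := by
  simp (decide := true) only [Lb, Fin.sum_univ_six, bz, if_true, if_false]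
  ring

theorem e2334 (η : I3 → ℂ) : Lb bz η 2 3 3 4 + Lb η bz 2 3 3 4 = (-1) * η (2, 3, 0) + (1) * η (3, 3, 1) := by
  simp (decide := true) only [Lb, Fin.sum_univ_six, bz, if_true, if_false]
  ring

theorem e3015 (η : I3 → ℂ) : Lb bz η 3 0 1 5 + Lb η bz 3 0 1 5 = (-1) * η (3, 0, 1) + (1) * η (0, 1, 2) + (-1) * η (3, 1, 2) := by
  simp (decide := true) only [Lb, Fin.sum_univ_six, bz, if_true, if_false]
  ring

theorem e3114 (η : I3 → ℂ) : Lb bz η 3 1 1 4 + Lb η bz 3 1 1 4 = (-1) * η (3, 1, 2) + (1) * η (3, 5, 4) := by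
  simp (decide := true) only [Lb, Fin.sum_univ_six, bz, if_true, if_false]
  ring

theorem e3234 (η : I3 → ℂ) : Lb bz η 3 2 3 4 + Lb η bz 3 2 3 4 = (-1) * η (3, 2, 0) + (-1) * η (3, 3, 1) + (-1) * η (5, 3, 4) := by
  simp (decide := true) only [Lb, Fin.sum_univ_six, bz, if_true, if_false]
  ring

theorem e3325 (η : I3 → ℂ) : Lb bz η 3 3 2 5 + Lb η bz 3 3 2 5 = (-1) * η (3, 3, 0) + (-1) * η (3, 3, 3) := by
  simp (decide := true) only [Lb, Fin.sum_univ_six, bz, if_true, if_false]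
  ring

theorem e0314 (η : I3 → ℂ) : Lb bz η 0 3 1 4 + Lb η bz 0 3 1 4 = (-1) * η (0, 3, 2) + (1) * η (3, 1, 3) + (-1) * η (4, 1, 4) := by
  simp (decide := true) only [Lb, Fin.sum_univ_six, bz, if_true, if_false]
  ring

theorem e0324 (η : I3 → ℂ) : Lb bz η 0 3 2 4 + Lb η bz 0 3 2 4 = (1) * η (3, 2, 3) + (-1) * η (4, 2, 4) + (1) * η (0, 5, 4) + (-1) * η (3, 5, 4) := by
  simp (decide := true) only [Lb, Fin.sum_univ_six, bz, if_true, if_false]
  ring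

theorem e2114 (η : I3 → ℂ) : Lb bz η 2 1 1 4 + Lb η bz 2 1 1 4 = (1) * η (1, 1, 1) + (-1) * η (2, 1, 2) + (-1) * η (4, 1, 4) + (-1) * η (1, 4, 4) + (1) * η (2, 5, 4) := by
  simp (decide := true) only [Lb, Fin.sum_univ_six, bz, if_true, if_false]
  ring

theorem e3225 (η : I3 → ℂ) : Lb bz η 3 2 2 5 + Lb η bz 3 2 2 5 = (-1) * η (3, 2, 0) + (1) * η (2, 2, 2) + (-1) * η (3, 2, 3) + (-1) * η (5, 2, 5) + (-1) * η (2, 5, 5) := by
  simp (decide := true) only [Lb, Fin.sum_univ_six, bz, if_true, if_false]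
  ring

theorem e1214 (η : I3 → ℂ) : Lb bz η 1 2 1 4 + Lb η bz 1 2 1 4 = (-1) * η (1, 1, 1) + (-1) * η (1, 2, 2) + (1) * η (1, 4, 4) + (-1) * η (2, 5, 4) := by
  simp (decide := true) only [Lb, Fin.sum_univ_six, bz, if_true, if_false]
  ring

theorem e1215 (η : I3 → ℂ) : Lb bz η 1 2 1 5 + Lb η bz 1 2 1 5 = (1) * η (2, 1, 1) + (-1) * η (1, 2, 1) + (1) * η (1, 4, 5) + (-1) * η (2, 5, 5) := by
  simp (decide := true) only [Lb, Fin.sum_univ_six, bz, if_true, if_false]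
  ring

theorem e2025 (η : I3 → ℂ) : Lb bz η 2 0 2 5 + Lb η bz 2 0 2 5 = (-1) * η (2, 0, 0) + (-1) * η (2, 2, 2) + (-1) * η (2, 0, 3) + (1) * η (2, 5, 5) := by
  simp (decide := true) only [Lb, Fin.sum_univ_six, bz, if_true, if_false]
  ring

theorem e2115 (η : I3 → ℂ) : Lb bz η 2 1 1 5 + Lb η bz 2 1 1 5 = (-2) * η (2, 1, 1) + (-1) * η (4, 1, 5) + (-1) * η (1, 4, 5) + (1) * η (2, 5, 5) := by
  simp (decide := true) only [Lb, Fin.sum_univ_six, bz, if_true, if_false]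
  ring

theorem e2325 (η : I3 → ℂ) : Lb bz η 2 3 2 5 + Lb η bz 2 3 2 5 = (-1) * η (2, 3, 0) + (-1) * η (2, 2, 2) + (-1) * η (2, 3, 3) + (1) * η (2, 5, 5) := by
  simp (decide := true) only [Lb, Fin.sum_univ_six, bz, if_true, if_false]
  ring

theorem e3125 (η : I3 → ℂ) : Lb bz η 3 1 2 5 + Lb η bz 3 1 2 5 = (-1) * η (3, 1, 0) + (-1) * η (3, 2, 1) + (1) * η (1, 2, 2) + (-1) * η (3, 1, 3) + (-1) * η (1, 5, 5) := by
  simp (decide := true) only [Lb, Fin.sum_univ_six, bz, if_true, if_false]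
  ring

theorem e0135 (η : I3 → ℂ) : Lb bz η 0 1 3 5 + Lb η bz 0 1 3 5 = (-1) * η (0, 3, 1) + (1) * η (1, 3, 2) + (-1) * η (1, 4, 5) := by
  simp (decide := true) only [Lb, Fin.sum_univ_six, bz, if_true, if_false]
  ring

theorem e1025 (η : I3 → ℂ) : Lb bz η 1 0 2 5 + Lb η bz 1 0 2 5 = (-1) * η (1, 0, 0) + (1) * η (0, 2, 1) + (-1) * η (1, 2, 2) + (-1) * η (1, 0, 3) + (1) * η (1, 5, 5) := by
  simp (decide := true) only [Lb, Fin.sum_univ_six, bz, if_true, if_false]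
  ring

theorem e1034 (η : I3 → ℂ) : Lb bz η 1 0 3 4 + Lb η bz 1 0 3 4 = (-1) * η (1, 0, 0) + (-1) * η (1, 3, 3) + (1) * η (1, 4, 4) := by
  simp (decide := true) only [Lb, Fin.sum_univ_six, bz, if_true, if_false]
  ring

theorem e2034 (η : I3 → ℂ) : Lb bz η 2 0 3 4 + Lb η bz 2 0 3 4 = (-1) * η (2, 0, 0) + (1) * η (0, 3, 1) + (-1) * η (2, 3, 3) + (1) * η (2, 4, 4) := by
  simp (decide := true) only [Lb, Fin.sum_univ_six, bz, if_true, if_false]
  ring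

theorem e0134 (η : I3 → ℂ) : Lb bz η 0 1 3 4 + Lb η bz 0 1 3 4 = (-1) * η (0, 1, 0) + (1) * η (1, 3, 3) + (-1) * η (1, 4, 4) := by
  simp (decide := true) only [Lb, Fin.sum_univ_six, bz, if_true, if_false]
  ring

theorem e0234 (η : I3 → ℂ) : Lb bz η 0 2 3 4 + Lb η bz 0 2 3 4 = (-1) * η (0, 2, 0) + (-1) * η (0, 3, 1) + (1) * η (2, 3, 3) + (-1) * η (2, 4, 4) + (-1) * η (5, 3, 4) := by
  simp (decide := true) only [Lb, Fin.sum_univ_six, bz, if_true, if_false]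
  ring

theorem e0125 (η : I3 → ℂ) : Lb bz η 0 1 2 5 + Lb η bz 0 1 2 5 = (-1) * η (0, 1, 0) + (-1) * η (0, 2, 1) + (1) * η (1, 2, 2) + (-1) * η (0, 1, 3) + (-1) * η (1, 5, 5) := by
  simp (decide := true) only [Lb, Fin.sum_univ_six, bz, if_true, if_false]
  ring

theorem e0225 (η : I3 → ℂ) : Lb bz η 0 2 2 5 + Lb η bz 0 2 2 5 = (-1) * η (0, 2, 0) + (1) * η (2, 2, 2) + (-1) * η (0, 2, 3) + (-1) * η (5, 2, 5) + (-1) * η (2, 5, 5) := by
  simp (decide := true) only [Lb, Fin.sum_univ_six, bz, if_true, if_false]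
  ring

theorem e1015 (η : I3 → ℂ) : Lb bz η 1 0 1 5 + Lb η bz 1 0 1 5 = (1) * η (0, 1, 1) + (-1) * η (1, 0, 1) + (-1) * η (1, 1, 2) + (-1) * η (0, 5, 5) := by
  simp (decide := true) only [Lb, Fin.sum_univ_six, bz, if_true, if_false]
  ring

theorem e0115 (η : I3 → ℂ) : Lb bz η 0 1 1 5 + Lb η bz 0 1 1 5 = (-2) * η (0, 1, 1) + (1) * η (1, 1, 2) + (1) * η (0, 5, 5) := by
  simp (decide := true) only [Lb, Fin.sum_univ_six, bz, if_true, if_false]
  ring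

theorem e2014 (η : I3 → ℂ) : Lb bz η 2 0 1 4 + Lb η bz 2 0 1 4 = (1) * η (0, 1, 1) + (-1) * η (2, 0, 2) + (-1) * η (2, 1, 3) + (-1) * η (0, 4, 4) := by
  simp (decide := true) only [Lb, Fin.sum_univ_six, bz, if_true, if_false]
  ring

theorem e0214 (η : I3 → ℂ) : Lb bz η 0 2 1 4 + Lb η bz 0 2 1 4 = (-1) * η (0, 1, 1) + (-1) * η (0, 2, 2) + (1) * η (2, 1, 3) + (1) * η (0, 4, 4) + (-1) * η (5, 1, 4) := by
  simp (decide := true) only [Lb, Fin.sum_univ_six, bz, if_true, if_false]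
  ring

theorem e3115 (η : I3 → ℂ) : Lb bz η 3 1 1 5 + Lb η bz 3 1 1 5 = (-2) * η (3, 1, 1) + (1) * η (1, 1, 2) + (1) * η (3, 5, 5) := by
  simp (decide := true) only [Lb, Fin.sum_univ_six, bz, if_true, if_false]
  ring

theorem e1315 (η : I3 → ℂ) : Lb bz η 1 3 1 5 + Lb η bz 1 3 1 5 = (1) * η (3, 1, 1) + (-1) * η (1, 3, 1) + (-1) * η (1, 1, 2) + (-1) * η (3, 5, 5) := by
  simp (decide := true) only [Lb, Fin.sum_univ_six, bz, if_true, if_false]
  ring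

theorem e2314 (η : I3 → ℂ) : Lb bz η 2 3 1 4 + Lb η bz 2 3 1 4 = (1) * η (3, 1, 1) + (-1) * η (2, 3, 2) + (-1) * η (3, 4, 4) := by
  simp (decide := true) only [Lb, Fin.sum_univ_six, bz, if_true, if_false]
  ring

theorem e3034 (η : I3 → ℂ) : Lb bz η 3 0 3 4 + Lb η bz 3 0 3 4 = (-1) * η (3, 0, 0) + (-1) * η (3, 3, 3) + (1) * η (3, 4, 4) := by
  simp (decide := true) only [Lb, Fin.sum_univ_six, bz, if_true, if_false]
  ring

theorem e3214 (η : I3 → ℂ) : Lb bz η 3 2 1 4 + Lb η bz 3 2 1 4 = (-1) * η (3, 1, 1) + (-1) * η (3, 2, 2) + (1) * η (3, 4, 4) + (-1) * η (5, 1, 4) := by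
  simp (decide := true) only [Lb, Fin.sum_univ_six, bz, if_true, if_false]
  ring

theorem e0334 (η : I3 → ℂ) : Lb bz η 0 3 3 4 + Lb η bz 0 3 3 4 = (-1) * η (0, 3, 0) + (1) * η (3, 3, 3) + (-1) * η (4, 3, 4) + (-1) * η (3, 4, 4) := by
  simp (decide := true) only [Lb, Fin.sum_univ_six, bz, if_true, if_false]
  ring

theorem e0325 (η : I3 → ℂ) : Lb bz η 0 3 2 5 + Lb η bz 0 3 2 5 = (-1) * η (0, 3, 0) + (1) * η (3, 2, 2) + (-1) * η (0, 2, 2) + (-1) * η (0, 3, 3) + (-1) * η (4, 2, 5) + (1) * η (0, 5, 5) + (-1) * η (3, 5, 5) := by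
  simp (decide := true) only [Lb, Fin.sum_univ_six, bz, if_true, if_false]
  ring

theorem inj (η : I3 → ℂ) (h0 : ∀ t, bad t = true → η t = 0)
    (h : ∀ a b c l, Lb bz η a b c l + Lb η bz a b c l = 0) : η = 0 := by
  have z004 : η (0, 0, 4) = 0 := h0 _ (by decide)
  have z005 : η (0, 0, 5) = 0 := h0 _ (by decide)
  have z014 : η (0, 1, 4) = 0 := h0 _ (by decide)
  have z015 : η (0, 1, 5) = 0 := h0 _ (by decide)
  have z024 : η (0, 2, 4) = 0 := h0 _ (by decide)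
  have z025 : η (0, 2, 5) = 0 := h0 _ (by decide)
  have z034 : η (0, 3, 4) = 0 := h0 _ (by decide)
  have z035 : η (0, 3, 5) = 0 := h0 _ (by decide)
  have z104 : η (1, 0, 4) = 0 := h0 _ (by decide)
  have z105 : η (1, 0, 5) = 0 := h0 _ (by decide)
  have z110 : η (1, 1, 0) = 0 := h0 _ (by decide)
  have z111 : η (1, 1, 1) = 0 := h0 _ (by decide)
  have z112 : η (1, 1, 2) = 0 := h0 _ (by decide)
  have z113 : η (1, 1, 3) = 0 := h0 _ (by decide)
  have z114 : η (1, 1, 4) = 0 := h0 _ (by decide)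
  have z115 : η (1, 1, 5) = 0 := h0 _ (by decide)
  have z124 : η (1, 2, 4) = 0 := h0 _ (by decide)
  have z125 : η (1, 2, 5) = 0 := h0 _ (by decide)
  have z134 : η (1, 3, 4) = 0 := h0 _ (by decide)
  have z135 : η (1, 3, 5) = 0 := h0 _ (by decide)
  have z204 : η (2, 0, 4) = 0 := h0 _ (by decide)
  have z205 : η (2, 0, 5) = 0 := h0 _ (by decide)
  have z210 : η (2, 1, 0) = 0 := h0 _ (by decide)
  have z211 : η (2, 1, 1) = 0 := h0 _ (by decide)
  have z212 : η (2, 1, 2) = 0 := h0 _ (by decide)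
  have z213 : η (2, 1, 3) = 0 := h0 _ (by decide)
  have z214 : η (2, 1, 4) = 0 := h0 _ (by decide)
  have z215 : η (2, 1, 5) = 0 := h0 _ (by decide)
  have z224 : η (2, 2, 4) = 0 := h0 _ (by decide)
  have z225 : η (2, 2, 5) = 0 := h0 _ (by decide)
  have z234 : η (2, 3, 4) = 0 := h0 _ (by decide)
  have z235 : η (2, 3, 5) = 0 := h0 _ (by decide)
  have z304 : η (3, 0, 4) = 0 := h0 _ (by decide)
  have z305 : η (3, 0, 5) = 0 := h0 _ (by decide)
  have z314 : η (3, 1, 4) = 0 := h0 _ (by decide)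
  have z315 : η (3, 1, 5) = 0 := h0 _ (by decide)
  have z324 : η (3, 2, 4) = 0 := h0 _ (by decide)
  have z325 : η (3, 2, 5) = 0 := h0 _ (by decide)
  have z334 : η (3, 3, 4) = 0 := h0 _ (by decide)
  have z335 : η (3, 3, 5) = 0 := h0 _ (by decide)
  have z002 : η (0, 0, 2) = 0 := by linear_combination (-1 / 1 : ℂ) * ((e0014 η).symm.trans (h _ _ _ _))
  have z001 : η (0, 0, 1) = 0 := by linear_combination (-1 / 1 : ℂ) * ((e0015 η).symm.trans (h _ _ _ _))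
  have z000 : η (0, 0, 0) = 0 := by linear_combination (-1 / 1 : ℂ) * ((e0034 η).symm.trans (h _ _ _ _))
  have z103 : η (1, 0, 3) = 0 := by linear_combination (1 / 1 : ℂ) * ((e0104 η).symm.trans (h _ _ _ _))
  have z102 : η (1, 0, 2) = 0 := by linear_combination (1 / 1 : ℂ) * ((e0105 η).symm.trans (h _ _ _ _)) + (1 / 1 : ℂ) * z001
  have z050 : η (0, 5, 0) = 0 := by linear_combination (1 / 1 : ℂ) * ((e0110 η).symm.trans (h _ _ _ _))
  have z051 : η (0, 5, 1) = 0 := by linear_combination (1 / 1 : ℂ) * ((e0111 η).symm.trans (h _ _ _ _))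
  have z052 : η (0, 5, 2) = 0 := by linear_combination (1 / 1 : ℂ) * ((e0112 η).symm.trans (h _ _ _ _))
  have z053 : η (0, 5, 3) = 0 := by linear_combination (1 / 1 : ℂ) * ((e0113 η).symm.trans (h _ _ _ _))
  have z150 : η (1, 5, 0) = 0 := by linear_combination (-1 / 1 : ℂ) * ((e0120 η).symm.trans (h _ _ _ _))
  have z151 : η (1, 5, 1) = 0 := by linear_combination (-1 / 1 : ℂ) * ((e0121 η).symm.trans (h _ _ _ _))
  have z152 : η (1, 5, 2) = 0 := by linear_combination (-1 / 1 : ℂ) * ((e0122 η).symm.trans (h _ _ _ _))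
  have z153 : η (1, 5, 3) = 0 := by linear_combination (-1 / 1 : ℂ) * ((e0123 η).symm.trans (h _ _ _ _))
  have z140 : η (1, 4, 0) = 0 := by linear_combination (-1 / 1 : ℂ) * ((e0130 η).symm.trans (h _ _ _ _))
  have z141 : η (1, 4, 1) = 0 := by linear_combination (-1 / 1 : ℂ) * ((e0131 η).symm.trans (h _ _ _ _))
  have z142 : η (1, 4, 2) = 0 := by linear_combination (-1 / 1 : ℂ) * ((e0132 η).symm.trans (h _ _ _ _))
  have z143 : η (1, 4, 3) = 0 := by linear_combination (-1 / 1 : ℂ) * ((e0133 η).symm.trans (h _ _ _ _))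
  have z041 : η (0, 4, 1) = 0 := by linear_combination (-1 / 1 : ℂ) * ((e0145 η).symm.trans (h _ _ _ _)) + (1 / 1 : ℂ) * z142
  have z500 : η (5, 0, 0) = 0 := by linear_combination (-1 / 1 : ℂ) * ((e0200 η).symm.trans (h _ _ _ _))
  have z501 : η (5, 0, 1) = 0 := by linear_combination (-1 / 1 : ℂ) * ((e0201 η).symm.trans (h _ _ _ _))
  have z502 : η (5, 0, 2) = 0 := by linear_combination (-1 / 1 : ℂ) * ((e0202 η).symm.trans (h _ _ _ _))
  have z503 : η (5, 0, 3) = 0 := by linear_combination (-1 / 1 : ℂ) * ((e0203 η).symm.trans (h _ _ _ _))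
  have z511 : η (5, 1, 1) = 0 := by linear_combination (-1 / 1 : ℂ) * ((e0211 η).symm.trans (h _ _ _ _)) + (1 / 1 : ℂ) * z041
  have z540 : η (5, 4, 0) = 0 := by linear_combination (-1 / 1 : ℂ) * ((e0240 η).symm.trans (h _ _ _ _))
  have z541 : η (5, 4, 1) = 0 := by linear_combination (-1 / 1 : ℂ) * ((e0241 η).symm.trans (h _ _ _ _))
  have z542 : η (5, 4, 2) = 0 := by linear_combination (-1 / 1 : ℂ) * ((e0242 η).symm.trans (h _ _ _ _))
  have z543 : η (5, 4, 3) = 0 := by linear_combination (-1 / 1 : ℂ) * ((e0243 η).symm.trans (h _ _ _ _))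
  have z550 : η (5, 5, 0) = 0 := by linear_combination (-1 / 1 : ℂ) * ((e0250 η).symm.trans (h _ _ _ _))
  have z551 : η (5, 5, 1) = 0 := by linear_combination (-1 / 1 : ℂ) * ((e0251 η).symm.trans (h _ _ _ _))
  have z552 : η (5, 5, 2) = 0 := by linear_combination (-1 / 1 : ℂ) * ((e0252 η).symm.trans (h _ _ _ _))
  have z553 : η (5, 5, 3) = 0 := by linear_combination (-1 / 1 : ℂ) * ((e0253 η).symm.trans (h _ _ _ _))
  have z400 : η (4, 0, 0) = 0 := by linear_combination (-1 / 1 : ℂ) * ((e0300 η).symm.trans (h _ _ _ _))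
  have z401 : η (4, 0, 1) = 0 := by linear_combination (-1 / 1 : ℂ) * ((e0301 η).symm.trans (h _ _ _ _))
  have z402 : η (4, 0, 2) = 0 := by linear_combination (-1 / 1 : ℂ) * ((e0302 η).symm.trans (h _ _ _ _))
  have z403 : η (4, 0, 3) = 0 := by linear_combination (-1 / 1 : ℂ) * ((e0303 η).symm.trans (h _ _ _ _))
  have z410 : η (4, 1, 0) = 0 := by linear_combination (-1 / 1 : ℂ) * ((e0310 η).symm.trans (h _ _ _ _))
  have z411 : η (4, 1, 1) = 0 := by linear_combination (-1 / 1 : ℂ) * ((e0311 η).symm.trans (h _ _ _ _))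
  have z412 : η (4, 1, 2) = 0 := by linear_combination (-1 / 1 : ℂ) * ((e0312 η).symm.trans (h _ _ _ _))
  have z413 : η (4, 1, 3) = 0 := by linear_combination (-1 / 1 : ℂ) * ((e0313 η).symm.trans (h _ _ _ _))
  have z440 : η (4, 4, 0) = 0 := by linear_combination (-1 / 1 : ℂ) * ((e0340 η).symm.trans (h _ _ _ _))
  have z441 : η (4, 4, 1) = 0 := by linear_combination (-1 / 1 : ℂ) * ((e0341 η).symm.trans (h _ _ _ _))
  have z442 : η (4, 4, 2) = 0 := by linear_combination (-1 / 1 : ℂ) * ((e0342 η).symm.trans (h _ _ _ _))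
  have z443 : η (4, 4, 3) = 0 := by linear_combination (-1 / 1 : ℂ) * ((e0343 η).symm.trans (h _ _ _ _))
  have z450 : η (4, 5, 0) = 0 := by linear_combination (-1 / 1 : ℂ) * ((e0350 η).symm.trans (h _ _ _ _))
  have z451 : η (4, 5, 1) = 0 := by linear_combination (-1 / 1 : ℂ) * ((e0351 η).symm.trans (h _ _ _ _))
  have z452 : η (4, 5, 2) = 0 := by linear_combination (-1 / 1 : ℂ) * ((e0352 η).symm.trans (h _ _ _ _))
  have z453 : η (4, 5, 3) = 0 := by linear_combination (-1 / 1 : ℂ) * ((e0353 η).symm.trans (h _ _ _ _))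
  have z042 : η (0, 4, 2) = 0 := by linear_combination (-1 / 1 : ℂ) * ((e0414 η).symm.trans (h _ _ _ _)) + (1 / 1 : ℂ) * z413
  have z513 : η (5, 1, 3) = 0 := by linear_combination (1 / 1 : ℂ) * ((e0514 η).symm.trans (h _ _ _ _)) + (1 / 1 : ℂ) * z052
  have z512 : η (5, 1, 2) = 0 := by linear_combination (1 / 1 : ℂ) * ((e0515 η).symm.trans (h _ _ _ _)) + (1 / 1 : ℂ) * z051
  have z054 : η (0, 5, 4) = 0 := by linear_combination (-1 / 1 : ℂ) * ((e1014 η).symm.trans (h _ _ _ _)) + (-1 / 1 : ℂ) * z102 + (-1 / 1 : ℂ) * z113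
  have z504 : η (5, 0, 4) = 0 := by linear_combination (-1 / 1 : ℂ) * ((e1104 η).symm.trans (h _ _ _ _))
  have z505 : η (5, 0, 5) = 0 := by linear_combination (-1 / 1 : ℂ) * ((e1105 η).symm.trans (h _ _ _ _))
  have z510 : η (5, 1, 0) = 0 := by linear_combination (-1 / 1 : ℂ) * ((e1110 η).symm.trans (h _ _ _ _))
  have z514 : η (5, 1, 4) = 0 := by linear_combination (-1 / 1 : ℂ) * ((e1114 η).symm.trans (h _ _ _ _)) + (-1 / 1 : ℂ) * z112
  have z515 : η (5, 1, 5) = 0 := by linear_combination (-1 / 1 : ℂ) * ((e1115 η).symm.trans (h _ _ _ _)) + (-1 / 1 : ℂ) * z111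
  have z520 : η (5, 2, 0) = 0 := by linear_combination (-1 / 1 : ℂ) * ((e1120 η).symm.trans (h _ _ _ _))
  have z521 : η (5, 2, 1) = 0 := by linear_combination (-1 / 1 : ℂ) * ((e1121 η).symm.trans (h _ _ _ _))
  have z522 : η (5, 2, 2) = 0 := by linear_combination (-1 / 1 : ℂ) * ((e1122 η).symm.trans (h _ _ _ _))
  have z523 : η (5, 2, 3) = 0 := by linear_combination (-1 / 1 : ℂ) * ((e1123 η).symm.trans (h _ _ _ _))
  have z524 : η (5, 2, 4) = 0 := by linear_combination (-1 / 1 : ℂ) * ((e1124 η).symm.trans (h _ _ _ _))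
  have z525 : η (5, 2, 5) = 0 := by linear_combination (-1 / 1 : ℂ) * ((e1125 η).symm.trans (h _ _ _ _)) + (-1 / 1 : ℂ) * z110 + (-1 / 1 : ℂ) * z113
  have z530 : η (5, 3, 0) = 0 := by linear_combination (-1 / 1 : ℂ) * ((e1130 η).symm.trans (h _ _ _ _))
  have z531 : η (5, 3, 1) = 0 := by linear_combination (-1 / 1 : ℂ) * ((e1131 η).symm.trans (h _ _ _ _))
  have z532 : η (5, 3, 2) = 0 := by linear_combination (-1 / 1 : ℂ) * ((e1132 η).symm.trans (h _ _ _ _))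
  have z533 : η (5, 3, 3) = 0 := by linear_combination (-1 / 1 : ℂ) * ((e1133 η).symm.trans (h _ _ _ _))
  have z534 : η (5, 3, 4) = 0 := by linear_combination (-1 / 1 : ℂ) * ((e1134 η).symm.trans (h _ _ _ _)) + (-1 / 1 : ℂ) * z110
  have z535 : η (5, 3, 5) = 0 := by linear_combination (-1 / 1 : ℂ) * ((e1135 η).symm.trans (h _ _ _ _))
  have z544 : η (5, 4, 4) = 0 := by linear_combination (-1 / 1 : ℂ) * ((e1144 η).symm.trans (h _ _ _ _))
  have z545 : η (5, 4, 5) = 0 := by linear_combination (-1 / 1 : ℂ) * ((e1145 η).symm.trans (h _ _ _ _))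
  have z554 : η (5, 5, 4) = 0 := by linear_combination (-1 / 1 : ℂ) * ((e1154 η).symm.trans (h _ _ _ _))
  have z555 : η (5, 5, 5) = 0 := by linear_combination (-1 / 1 : ℂ) * ((e1155 η).symm.trans (h _ _ _ _))
  have z101 : η (1, 0, 1) = 0 := by linear_combination (-1 / 1 : ℂ) * ((e1204 η).symm.trans (h _ _ _ _))
  have z201 : η (2, 0, 1) = 0 := by linear_combination (1 / 1 : ℂ) * ((e1205 η).symm.trans (h _ _ _ _))
  have z250 : η (2, 5, 0) = 0 := by linear_combination (-1 / 1 : ℂ) * ((e1210 η).symm.trans (h _ _ _ _)) + (1 / 1 : ℂ) * z140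
  have z251 : η (2, 5, 1) = 0 := by linear_combination (-1 / 1 : ℂ) * ((e1211 η).symm.trans (h _ _ _ _)) + (1 / 1 : ℂ) * z141
  have z252 : η (2, 5, 2) = 0 := by linear_combination (-1 / 1 : ℂ) * ((e1212 η).symm.trans (h _ _ _ _)) + (1 / 1 : ℂ) * z142
  have z253 : η (2, 5, 3) = 0 := by linear_combination (-1 / 1 : ℂ) * ((e1213 η).symm.trans (h _ _ _ _)) + (1 / 1 : ℂ) * z143
  have z121 : η (1, 2, 1) = 0 := by linear_combination (-1 / 1 : ℂ) * ((e1224 η).symm.trans (h _ _ _ _))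
  have z231 : η (2, 3, 1) = 0 := by linear_combination (1 / 1 : ℂ) * ((e1235 η).symm.trans (h _ _ _ _))
  have z241 : η (2, 4, 1) = 0 := by linear_combination (1 / 1 : ℂ) * ((e1245 η).symm.trans (h _ _ _ _))
  have z301 : η (3, 0, 1) = 0 := by linear_combination (1 / 1 : ℂ) * ((e1305 η).symm.trans (h _ _ _ _)) + (1 / 1 : ℂ) * z102
  have z350 : η (3, 5, 0) = 0 := by linear_combination (-1 / 1 : ℂ) * ((e1310 η).symm.trans (h _ _ _ _))
  have z351 : η (3, 5, 1) = 0 := by linear_combination (-1 / 1 : ℂ) * ((e1311 η).symm.trans (h _ _ _ _))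
  have z352 : η (3, 5, 2) = 0 := by linear_combination (-1 / 1 : ℂ) * ((e1312 η).symm.trans (h _ _ _ _))
  have z353 : η (3, 5, 3) = 0 := by linear_combination (-1 / 1 : ℂ) * ((e1313 η).symm.trans (h _ _ _ _))
  have z154 : η (1, 5, 4) = 0 := by linear_combination (1 / 1 : ℂ) * ((e1324 η).symm.trans (h _ _ _ _))
  have z130 : η (1, 3, 0) = 0 := by linear_combination (-1 / 1 : ℂ) * ((e1334 η).symm.trans (h _ _ _ _))
  have z341 : η (3, 4, 1) = 0 := by linear_combination (1 / 1 : ℂ) * ((e1345 η).symm.trans (h _ _ _ _)) + (1 / 1 : ℂ) * z142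
  have z454 : η (4, 5, 4) = 0 := by linear_combination (-1 / 1 : ℂ) * ((e1414 η).symm.trans (h _ _ _ _)) + (-1 / 1 : ℂ) * z142
  have z455 : η (4, 5, 5) = 0 := by linear_combination (-1 / 1 : ℂ) * ((e1415 η).symm.trans (h _ _ _ _)) + (1 / 1 : ℂ) * z411 + (-1 / 1 : ℂ) * z141
  have z421 : η (4, 2, 1) = 0 := by linear_combination (1 / 1 : ℂ) * ((e1425 η).symm.trans (h _ _ _ _)) + (1 / 1 : ℂ) * z140 + (1 / 1 : ℂ) * z143
  have z431 : η (4, 3, 1) = 0 := by linear_combination (1 / 1 : ℂ) * ((e1435 η).symm.trans (h _ _ _ _))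
  have z203 : η (2, 0, 3) = 0 := by linear_combination (-1 / 1 : ℂ) * ((e2004 η).symm.trans (h _ _ _ _)) + (1 / 1 : ℂ) * z001
  have z202 : η (2, 0, 2) = 0 := by linear_combination (-1 / 1 : ℂ) * ((e2005 η).symm.trans (h _ _ _ _))
  have z040 : η (0, 4, 0) = 0 := by linear_combination (-1 / 1 : ℂ) * ((e2010 η).symm.trans (h _ _ _ _))
  have z043 : η (0, 4, 3) = 0 := by linear_combination (-1 / 1 : ℂ) * ((e2013 η).symm.trans (h _ _ _ _))
  have z045 : η (0, 4, 5) = 0 := by linear_combination (-1 / 1 : ℂ) * ((e2015 η).symm.trans (h _ _ _ _)) + (-1 / 1 : ℂ) * z201 + (-1 / 1 : ℂ) * z212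
  have z240 : η (2, 4, 0) = 0 := by linear_combination (1 / 1 : ℂ) * ((e2030 η).symm.trans (h _ _ _ _))
  have z242 : η (2, 4, 2) = 0 := by linear_combination (1 / 1 : ℂ) * ((e2032 η).symm.trans (h _ _ _ _))
  have z243 : η (2, 4, 3) = 0 := by linear_combination (1 / 1 : ℂ) * ((e2033 η).symm.trans (h _ _ _ _))
  have z404 : η (4, 0, 4) = 0 := by linear_combination (-1 / 1 : ℂ) * ((e2104 η).symm.trans (h _ _ _ _)) + (1 / 1 : ℂ) * z101
  have z405 : η (4, 0, 5) = 0 := by linear_combination (-1 / 1 : ℂ) * ((e2105 η).symm.trans (h _ _ _ _)) + (-1 / 1 : ℂ) * z201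
  have z420 : η (4, 2, 0) = 0 := by linear_combination (-1 / 1 : ℂ) * ((e2120 η).symm.trans (h _ _ _ _))
  have z422 : η (4, 2, 2) = 0 := by linear_combination (-1 / 1 : ℂ) * ((e2122 η).symm.trans (h _ _ _ _))
  have z423 : η (4, 2, 3) = 0 := by linear_combination (-1 / 1 : ℂ) * ((e2123 η).symm.trans (h _ _ _ _))
  have z424 : η (4, 2, 4) = 0 := by linear_combination (-1 / 1 : ℂ) * ((e2124 η).symm.trans (h _ _ _ _)) + (1 / 1 : ℂ) * z121
  have z430 : η (4, 3, 0) = 0 := by linear_combination (-1 / 1 : ℂ) * ((e2130 η).symm.trans (h _ _ _ _))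
  have z432 : η (4, 3, 2) = 0 := by linear_combination (-1 / 1 : ℂ) * ((e2132 η).symm.trans (h _ _ _ _))
  have z433 : η (4, 3, 3) = 0 := by linear_combination (-1 / 1 : ℂ) * ((e2133 η).symm.trans (h _ _ _ _))
  have z435 : η (4, 3, 5) = 0 := by linear_combination (-1 / 1 : ℂ) * ((e2135 η).symm.trans (h _ _ _ _)) + (-1 / 1 : ℂ) * z231
  have z444 : η (4, 4, 4) = 0 := by linear_combination (-1 / 1 : ℂ) * ((e2144 η).symm.trans (h _ _ _ _)) + (1 / 1 : ℂ) * z141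
  have z445 : η (4, 4, 5) = 0 := by linear_combination (-1 / 1 : ℂ) * ((e2145 η).symm.trans (h _ _ _ _)) + (-1 / 1 : ℂ) * z241
  have z222 : η (2, 2, 2) = 0 := by linear_combination (-1 / 1 : ℂ) * ((e2214 η).symm.trans (h _ _ _ _))
  have z221 : η (2, 2, 1) = 0 := by linear_combination (-1 / 1 : ℂ) * ((e2215 η).symm.trans (h _ _ _ _))
  have z220 : η (2, 2, 0) = 0 := by linear_combination (-1 / 1 : ℂ) * ((e2234 η).symm.trans (h _ _ _ _))
  have z340 : η (3, 4, 0) = 0 := by linear_combination (-1 / 1 : ℂ) * ((e2310 η).symm.trans (h _ _ _ _))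
  have z342 : η (3, 4, 2) = 0 := by linear_combination (-1 / 1 : ℂ) * ((e2312 η).symm.trans (h _ _ _ _))
  have z343 : η (3, 4, 3) = 0 := by linear_combination (-1 / 1 : ℂ) * ((e2313 η).symm.trans (h _ _ _ _))
  have z345 : η (3, 4, 5) = 0 := by linear_combination (-1 / 1 : ℂ) * ((e2315 η).symm.trans (h _ _ _ _)) + (-1 / 1 : ℂ) * z231 + (-1 / 1 : ℂ) * z212
  have z232 : η (2, 3, 2) = 0 := by linear_combination (-1 / 1 : ℂ) * ((e2335 η).symm.trans (h _ _ _ _))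
  have z303 : η (3, 0, 3) = 0 := by linear_combination (-1 / 1 : ℂ) * ((e3004 η).symm.trans (h _ _ _ _))
  have z302 : η (3, 0, 2) = 0 := by linear_combination (-1 / 1 : ℂ) * ((e3005 η).symm.trans (h _ _ _ _)) + (1 / 1 : ℂ) * z002
  have z313 : η (3, 1, 3) = 0 := by linear_combination (-1 / 1 : ℂ) * ((e3014 η).symm.trans (h _ _ _ _)) + (-1 / 1 : ℂ) * z302
  have z310 : η (3, 1, 0) = 0 := by linear_combination (-1 / 1 : ℂ) * ((e3134 η).symm.trans (h _ _ _ _))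
  have z321 : η (3, 2, 1) = 0 := by linear_combination (-1 / 1 : ℂ) * ((e3215 η).symm.trans (h _ _ _ _)) + (1 / 1 : ℂ) * z212 + (1 / 1 : ℂ) * z345 + (-1 / 1 : ℂ) * z515
  have z254 : η (2, 5, 4) = 0 := by linear_combination (-1 / 1 : ℂ) * ((e3224 η).symm.trans (h _ _ _ _)) + (-1 / 1 : ℂ) * z321 + (-1 / 1 : ℂ) * z524
  have z332 : η (3, 3, 2) = 0 := by linear_combination (-1 / 1 : ℂ) * ((e3314 η).symm.trans (h _ _ _ _))
  have z331 : η (3, 3, 1) = 0 := by linear_combination (-1 / 1 : ℂ) * ((e3315 η).symm.trans (h _ _ _ _))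
  have z330 : η (3, 3, 0) = 0 := by linear_combination (-1 / 1 : ℂ) * ((e3334 η).symm.trans (h _ _ _ _))
  have z003 : η (0, 0, 3) = 0 := by linear_combination (-1 / 1 : ℂ) * ((e0025 η).symm.trans (h _ _ _ _)) + (-1 / 1 : ℂ) * z000
  have z012 : η (0, 1, 2) = 0 := by linear_combination (-1 / 1 : ℂ) * ((e0114 η).symm.trans (h _ _ _ _)) + (1 / 1 : ℂ) * z113 + (1 / 1 : ℂ) * z054
  have z123 : η (1, 2, 3) = 0 := by linear_combination (1 / 1 : ℂ) * ((e0124 η).symm.trans (h _ _ _ _)) + (1 / 1 : ℂ) * z154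
  have z021 : η (0, 2, 1) = 0 := by linear_combination (-1 / 1 : ℂ) * ((e0215 η).symm.trans (h _ _ _ _)) + (1 / 1 : ℂ) * z212 + (1 / 1 : ℂ) * z045 + (-1 / 1 : ℂ) * z515
  have z223 : η (2, 2, 3) = 0 := by linear_combination (1 / 1 : ℂ) * ((e0224 η).symm.trans (h _ _ _ _)) + (1 / 1 : ℂ) * z021 + (1 / 1 : ℂ) * z524 + (1 / 1 : ℂ) * z254
  have z245 : η (2, 4, 5) = 0 := by linear_combination (-1 / 1 : ℂ) * ((e0235 η).symm.trans (h _ _ _ _)) + (1 / 1 : ℂ) * z232 + (-1 / 1 : ℂ) * z535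
  have z032 : η (0, 3, 2) = 0 := by linear_combination (-1 / 1 : ℂ) * ((e0335 η).symm.trans (h _ _ _ _)) + (1 / 1 : ℂ) * z332 + (-1 / 1 : ℂ) * z435 + (-1 / 1 : ℂ) * z345
  have z120 : η (1, 2, 0) = 0 := by linear_combination (-1 / 1 : ℂ) * ((e1225 η).symm.trans (h _ _ _ _)) + (1 / 1 : ℂ) * z221 + (-1 / 1 : ℂ) * z123
  have z131 : η (1, 3, 1) = 0 := by linear_combination (-1 / 1 : ℂ) * ((e1234 η).symm.trans (h _ _ _ _)) + (-1 / 1 : ℂ) * z120
  have z132 : η (1, 3, 2) = 0 := by linear_combination (-1 / 1 : ℂ) * ((e1335 η).symm.trans (h _ _ _ _)) + (1 / 1 : ℂ) * z331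
  have z425 : η (4, 2, 5) = 0 := by linear_combination (-1 / 1 : ℂ) * ((e2125 η).symm.trans (h _ _ _ _)) + (-1 / 1 : ℂ) * z210 + (-1 / 1 : ℂ) * z221 + (-1 / 1 : ℂ) * z213
  have z434 : η (4, 3, 4) = 0 := by linear_combination (-1 / 1 : ℂ) * ((e2134 η).symm.trans (h _ _ _ _)) + (-1 / 1 : ℂ) * z210 + (1 / 1 : ℂ) * z131
  have z230 : η (2, 3, 0) = 0 := by linear_combination (-1 / 1 : ℂ) * ((e2334 η).symm.trans (h _ _ _ _)) + (1 / 1 : ℂ) * z331
  have z312 : η (3, 1, 2) = 0 := by linear_combination (-1 / 1 : ℂ) * ((e3015 η).symm.trans (h _ _ _ _)) + (-1 / 1 : ℂ) * z301 + (1 / 1 : ℂ) * z012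
  have z354 : η (3, 5, 4) = 0 := by linear_combination (1 / 1 : ℂ) * ((e3114 η).symm.trans (h _ _ _ _)) + (1 / 1 : ℂ) * z312
  have z320 : η (3, 2, 0) = 0 := by linear_combination (-1 / 1 : ℂ) * ((e3234 η).symm.trans (h _ _ _ _)) + (-1 / 1 : ℂ) * z331 + (-1 / 1 : ℂ) * z534
  have z333 : η (3, 3, 3) = 0 := by linear_combination (-1 / 1 : ℂ) * ((e3325 η).symm.trans (h _ _ _ _)) + (-1 / 1 : ℂ) * z330
  have z414 : η (4, 1, 4) = 0 := by linear_combination (-1 / 1 : ℂ) * ((e0314 η).symm.trans (h _ _ _ _)) + (-1 / 1 : ℂ) * z032 + (1 / 1 : ℂ) * z313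
  have z323 : η (3, 2, 3) = 0 := by linear_combination (1 / 1 : ℂ) * ((e0324 η).symm.trans (h _ _ _ _)) + (1 / 1 : ℂ) * z424 + (-1 / 1 : ℂ) * z054 + (1 / 1 : ℂ) * z354
  have z144 : η (1, 4, 4) = 0 := by linear_combination (-1 / 1 : ℂ) * ((e2114 η).symm.trans (h _ _ _ _)) + (1 / 1 : ℂ) * z111 + (-1 / 1 : ℂ) * z212 + (-1 / 1 : ℂ) * z414 + (1 / 1 : ℂ) * z254
  have z255 : η (2, 5, 5) = 0 := by linear_combination (-1 / 1 : ℂ) * ((e3225 η).symm.trans (h _ _ _ _)) + (-1 / 1 : ℂ) * z320 + (1 / 1 : ℂ) * z222 + (-1 / 1 : ℂ) * z323 + (-1 / 1 : ℂ) * z525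
  have z122 : η (1, 2, 2) = 0 := by linear_combination (-1 / 1 : ℂ) * ((e1214 η).symm.trans (h _ _ _ _)) + (-1 / 1 : ℂ) * z111 + (1 / 1 : ℂ) * z144 + (-1 / 1 : ℂ) * z254
  have z145 : η (1, 4, 5) = 0 := by linear_combination (1 / 1 : ℂ) * ((e1215 η).symm.trans (h _ _ _ _)) + (-1 / 1 : ℂ) * z211 + (1 / 1 : ℂ) * z121 + (1 / 1 : ℂ) * z255
  have z200 : η (2, 0, 0) = 0 := by linear_combination (-1 / 1 : ℂ) * ((e2025 η).symm.trans (h _ _ _ _)) + (-1 / 1 : ℂ) * z222 + (-1 / 1 : ℂ) * z203 + (1 / 1 : ℂ) * z255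
  have z415 : η (4, 1, 5) = 0 := by linear_combination (-1 / 1 : ℂ) * ((e2115 η).symm.trans (h _ _ _ _)) + (-2 / 1 : ℂ) * z211 + (-1 / 1 : ℂ) * z145 + (1 / 1 : ℂ) * z255
  have z233 : η (2, 3, 3) = 0 := by linear_combination (-1 / 1 : ℂ) * ((e2325 η).symm.trans (h _ _ _ _)) + (-1 / 1 : ℂ) * z230 + (-1 / 1 : ℂ) * z222 + (1 / 1 : ℂ) * z255
  have z155 : η (1, 5, 5) = 0 := by linear_combination (-1 / 1 : ℂ) * ((e3125 η).symm.trans (h _ _ _ _)) + (-1 / 1 : ℂ) * z310 + (-1 / 1 : ℂ) * z321 + (1 / 1 : ℂ) * z122 + (-1 / 1 : ℂ) * z313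
  have z031 : η (0, 3, 1) = 0 := by linear_combination (-1 / 1 : ℂ) * ((e0135 η).symm.trans (h _ _ _ _)) + (1 / 1 : ℂ) * z132 + (-1 / 1 : ℂ) * z145
  have z100 : η (1, 0, 0) = 0 := by linear_combination (-1 / 1 : ℂ) * ((e1025 η).symm.trans (h _ _ _ _)) + (1 / 1 : ℂ) * z021 + (-1 / 1 : ℂ) * z122 + (-1 / 1 : ℂ) * z103 + (1 / 1 : ℂ) * z155
  have z133 : η (1, 3, 3) = 0 := by linear_combination (-1 / 1 : ℂ) * ((e1034 η).symm.trans (h _ _ _ _)) + (-1 / 1 : ℂ) * z100 + (1 / 1 : ℂ) * z144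
  have z244 : η (2, 4, 4) = 0 := by linear_combination (1 / 1 : ℂ) * ((e2034 η).symm.trans (h _ _ _ _)) + (1 / 1 : ℂ) * z200 + (-1 / 1 : ℂ) * z031 + (1 / 1 : ℂ) * z233
  have z010 : η (0, 1, 0) = 0 := by linear_combination (-1 / 1 : ℂ) * ((e0134 η).symm.trans (h _ _ _ _)) + (1 / 1 : ℂ) * z133 + (-1 / 1 : ℂ) * z144
  have z020 : η (0, 2, 0) = 0 := by linear_combination (-1 / 1 : ℂ) * ((e0234 η).symm.trans (h _ _ _ _)) + (-1 / 1 : ℂ) * z031 + (1 / 1 : ℂ) * z233 + (-1 / 1 : ℂ) * z244 + (-1 / 1 : ℂ) * z534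
  have z013 : η (0, 1, 3) = 0 := by linear_combination (-1 / 1 : ℂ) * ((e0125 η).symm.trans (h _ _ _ _)) + (-1 / 1 : ℂ) * z010 + (-1 / 1 : ℂ) * z021 + (1 / 1 : ℂ) * z122 + (-1 / 1 : ℂ) * z155
  have z023 : η (0, 2, 3) = 0 := by linear_combination (-1 / 1 : ℂ) * ((e0225 η).symm.trans (h _ _ _ _)) + (-1 / 1 : ℂ) * z020 + (1 / 1 : ℂ) * z222 + (-1 / 1 : ℂ) * z525 + (-1 / 1 : ℂ) * z255
  have z055 : η (0, 5, 5) = 0 := by linear_combination (-2 / 1 : ℂ) * ((e1015 η).symm.trans (h _ _ _ _)) + (-1 / 1 : ℂ) * ((e0115 η).symm.trans (h _ _ _ _)) + (-2 / 1 : ℂ) * z101 + (-1 / 1 : ℂ) * z112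
  have z011 : η (0, 1, 1) = 0 := by linear_combination (-1 / 2 : ℂ) * ((e0115 η).symm.trans (h _ _ _ _)) + (1 / 2 : ℂ) * z112 + (1 / 2 : ℂ) * z055
  have z044 : η (0, 4, 4) = 0 := by linear_combination (-1 / 1 : ℂ) * ((e2014 η).symm.trans (h _ _ _ _)) + (1 / 1 : ℂ) * z011 + (-1 / 1 : ℂ) * z202 + (-1 / 1 : ℂ) * z213
  have z022 : η (0, 2, 2) = 0 := by linear_combination (-1 / 1 : ℂ) * ((e0214 η).symm.trans (h _ _ _ _)) + (-1 / 1 : ℂ) * z011 + (1 / 1 : ℂ) * z213 + (1 / 1 : ℂ) * z044 + (-1 / 1 : ℂ) * z514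
  have z355 : η (3, 5, 5) = 0 := by linear_combination (-1 / 1 : ℂ) * ((e3115 η).symm.trans (h _ _ _ _)) + (-2 / 1 : ℂ) * ((e1315 η).symm.trans (h _ _ _ _)) + (-1 / 1 : ℂ) * z112 + (-2 / 1 : ℂ) * z131
  have z311 : η (3, 1, 1) = 0 := by linear_combination (1 / 1 : ℂ) * ((e1315 η).symm.trans (h _ _ _ _)) + (1 / 1 : ℂ) * z131 + (1 / 1 : ℂ) * z112 + (1 / 1 : ℂ) * z355
  have z344 : η (3, 4, 4) = 0 := by linear_combination (-1 / 1 : ℂ) * ((e2314 η).symm.trans (h _ _ _ _)) + (1 / 1 : ℂ) * z311 + (-1 / 1 : ℂ) * z232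
  have z300 : η (3, 0, 0) = 0 := by linear_combination (-1 / 1 : ℂ) * ((e3034 η).symm.trans (h _ _ _ _)) + (-1 / 1 : ℂ) * z333 + (1 / 1 : ℂ) * z344
  have z322 : η (3, 2, 2) = 0 := by linear_combination (-1 / 1 : ℂ) * ((e3214 η).symm.trans (h _ _ _ _)) + (-1 / 1 : ℂ) * z311 + (1 / 1 : ℂ) * z344 + (-1 / 1 : ℂ) * z514
  have z030 : η (0, 3, 0) = 0 := by linear_combination (-1 / 1 : ℂ) * ((e0334 η).symm.trans (h _ _ _ _)) + (1 / 1 : ℂ) * z333 + (-1 / 1 : ℂ) * z434 + (-1 / 1 : ℂ) * z344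
  have z033 : η (0, 3, 3) = 0 := by linear_combination (-1 / 1 : ℂ) * ((e0325 η).symm.trans (h _ _ _ _)) + (-1 / 1 : ℂ) * z030 + (1 / 1 : ℂ) * z322 + (-1 / 1 : ℂ) * z022 + (-1 / 1 : ℂ) * z425 + (1 / 1 : ℂ) * z055 + (-1 / 1 : ℂ) * z355
  funext ⟨i, j, k⟩
  fin_cases i <;> fin_cases j <;> fin_cases k <;> assumption

end Pool.Agent.H502Z.Leib
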