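import Pool.Agent.H502Z.Leib.Inj

set_option autoImplicit false

namespace Pool.Agent.H502Z.Leib

open MvPolynomial Matrix

/-- polynomial functions of the structure constants -/
def IsPoly (f : (I3 → ℂ) → ℂ) : Prop := ∃ p : MvPolynomial I3 ℂ, ∀ c, eval c p = f c

theorem IsPoly.const (a : ℂ) : IsPoly fun _ => a := ⟨C a, fun _ => by simp⟩
theorem IsPoly.coord (t : I3) : IsPoly fun c => c t := ⟨X t, fun _ => by simp⟩
theorem IsPoly.add {f g : (I3 → ℂ) → ℂ} (hf : IsPoly f) (hg : IsPoly g) :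
    IsPoly fun c => f c + g c := by
  obtain ⟨p, hp⟩ := hf
  obtain ⟨q, hq⟩ := hg
  exact ⟨p + q, fun c => by simp [hp, hq]⟩
theorem IsPoly.sub {f g : (I3 → ℂ) → ℂ} (hf : IsPoly f) (hg : IsPoly g) :
    IsPoly fun c => f c - g c := by
  obtain ⟨p, hp⟩ := hf
  obtain ⟨q, hq⟩ := hg
  exact ⟨p - q, fun c => by simp [hp, hq]⟩
theorem IsPoly.mul {f g : (I3 → ℂ) → ℂ} (hf : IsPoly f) (hg : IsPoly g) :
    IsPoly fun c => f c * g c := by
  obtain ⟨p, hp⟩ := hf
  obtain ⟨q, hq⟩ := hg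
  exact ⟨p * q, fun c => by simp [hp, hq]⟩
theorem IsPoly.sum {α : Type} [Fintype α] {f : α → (I3 → ℂ) → ℂ} (hf : ∀ a, IsPoly (f a)) :
    IsPoly fun c => ∑ a, f a c := by
  choose p hp using hf
  exact ⟨∑ a, p a, fun c => by simp [hp]⟩
theorem IsPoly.ite (P : Prop) [Decidable P] {f g : (I3 → ℂ) → ℂ} (hf : IsPoly f) (hg : IsPoly g) :
    IsPoly fun c => if P then f c else g c := by
  by_cases h : P
  · simpa [h] using hf
  · simpa [h] using hg
theorem IsPoly.det {α : Type} [Fintype α] [DecidableEq α] {M : (I3 → ℂ) → Matrix α α ℂ}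
    (hM : ∀ i j, IsPoly fun c => M c i j) : IsPoly fun c => (M c).det := by
  choose p hp using hM
  refine ⟨(Matrix.of p).det, fun c => ?_⟩
  rw [RingHom.map_det]
  congr 1
  ext i j
  simp [hp]
theorem IsPoly.adj {α : Type} [Fintype α] [DecidableEq α] {M : (I3 → ℂ) → Matrix α α ℂ}
    (hM : ∀ i j, IsPoly fun c => M c i j) (i j : α) : IsPoly fun c => (M c).adjugate i j := by
  choose p hp using hM
  refine ⟨(Matrix.of p).adjugate i j, fun c => ?_⟩
  have h := RingHom.map_adjugate (eval c) (Matrix.of p)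
  have h2 : (eval c).mapMatrix (Matrix.of p) = M c := by
    ext i j
    simp [hp]
  rw [h2] at h
  have h3 := congrFun (congrFun h i) j
  simpa using h3
theorem IsPoly.comp {f : (I3 → ℂ) → ℂ} (hf : IsPoly f) {g : (I3 → ℂ) → I3 → ℂ}
    (hg : ∀ t, IsPoly fun c => g c t) : IsPoly fun c => f (g c) := by
  obtain ⟨p, hp⟩ := hf
  choose q hq using hg
  refine ⟨bind₁ q p, fun c => ?_⟩
  beta_reduce
  rw [← hp]
  have := eval₂Hom_bind₁ (RingHom.id ℂ) c q p
  simp only [coe_eval₂Hom] at this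
  change eval₂ (RingHom.id ℂ) c _ = eval₂ (RingHom.id ℂ) (g c) p
  rw [this]
  congr 1
  funext t
  exact hq t c

/-- the product with structure constants `c` -/
def mul (c : I3 → ℂ) (u v : Fin 6 → ℂ) : Fin 6 → ℂ :=
  fun k => ∑ i : Fin 6, ∑ j : Fin 6, u i * v j * c (i, j, k)

/-- the product as a bilinear map -/
def mulL (c : I3 → ℂ) : (Fin 6 → ℂ) →ₗ[ℂ] (Fin 6 → ℂ) →ₗ[ℂ] (Fin 6 → ℂ) :=
  LinearMap.mk₂ ℂ (mul c)
    (fun u u' v => by funext k; simp [mul, add_mul, Finset.sum_add_distrib])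
    (fun a u v => by funext k; simp [mul, Finset.mul_sum, mul_assoc])
    (fun u v v' => by funext k; simp [mul, mul_add, add_mul, Finset.sum_add_distrib])
    (fun a u v => by
      funext k
      simp only [mul, Pi.smul_apply, smul_eq_mul, Finset.mul_sum]
      refine Finset.sum_congr rfl fun i _ => Finset.sum_congr rfl fun j _ => by ring)

theorem mulL_apply (c : I3 → ℂ) (u v : Fin 6 → ℂ) : mulL c u v = mul c u v := rfl

theorem mul_single (c : I3 → ℂ) (i j k : Fin 6) :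
    mul c (Pi.single i 1) (Pi.single j 1) k = c (i, j, k) := by
  simp [mul, Pi.single_apply, ite_mul, Finset.sum_ite_eq']

theorem mul_single_left (c : I3 → ℂ) (i k : Fin 6) (v : Fin 6 → ℂ) :
    mul c (Pi.single i 1) v k = ∑ j, c (i, j, k) * v j := by
  simp [mul, Pi.single_apply, ite_mul, Finset.sum_ite_eq', mul_comm]

theorem mul_single_right (c : I3 → ℂ) (j k : Fin 6) (v : Fin 6 → ℂ) :
    mul c v (Pi.single j 1) k = ∑ i, c (i, j, k) * v i := by
  simp [mul, Pi.single_apply, ite_mul, Finset.sum_ite_eq', mul_comm]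

/-- structure constants of a bilinear map -/
def sc (B : (Fin 6 → ℂ) →ₗ[ℂ] (Fin 6 → ℂ) →ₗ[ℂ] (Fin 6 → ℂ)) : I3 → ℂ :=
  fun t => B (Pi.single t.1 1) (Pi.single t.2.1 1) t.2.2

theorem mulL_sc (B : (Fin 6 → ℂ) →ₗ[ℂ] (Fin 6 → ℂ) →ₗ[ℂ] (Fin 6 → ℂ)) : mulL (sc B) = B := by
  refine LinearMap.pi_ext' fun i => LinearMap.ext_ring ?_
  refine LinearMap.pi_ext' fun j => LinearMap.ext_ring ?_
  funext k
  simp [mulL_apply, mul_single, sc]

/-- the left Leibniz identity -/
def LeibP (c : I3 → ℂ) : Prop :=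
  ∀ u v w, mul c u (mul c v w) = mul c (mul c u v) w + mul c v (mul c u w)

/-- two-step nilpotency -/
def N2 (c : I3 → ℂ) : Prop :=
  ∀ u v w, mul c u (mul c v w) = 0 ∧ mul c (mul c u v) w = 0

theorem Lb_self {c : I3 → ℂ} (h : LeibP c) (a b d l : Fin 6) : Lb c c a b d l = 0 := by
  have := congrFun (h (Pi.single a 1) (Pi.single b 1) (Pi.single d 1)) l
  rw [Pi.add_apply, mul_single_left, mul_single_right, mul_single_left] at this
  simp only [mul_single] at this
  simp only [Lb, Finset.sum_sub_distrib]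
  rw [this]
  ring

/-- base change matrix -/
def T (c : I3 → ℂ) : Matrix (Fin 6) (Fin 6) ℂ :=
  fun a i => if i = 4 then c (2, 1, a) else if i = 5 then c (1, 1, a) else if a = i then 1 else 0

/-- normalised structure constants -/
noncomputable def nrm (c : I3 → ℂ) : I3 → ℂ :=
  sc (((mulL c).compl₁₂ (Matrix.toLin' (T c)) (Matrix.toLin' (T c))).compr₂
    (Matrix.toLin' (T c).adjugate))

theorem mul_nrm (c : I3 → ℂ) (u v : Fin 6 → ℂ) :
    mul (nrm c) u v = (T c).adjugate *ᵥ mul c (T c *ᵥ u) (T c *ᵥ v) := by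
  rw [← mulL_apply, nrm, mulL_sc]
  simp [mulL_apply]

theorem T_adj (c : I3 → ℂ) (x : Fin 6 → ℂ) : T c *ᵥ ((T c).adjugate *ᵥ x) = (T c).det • x := by
  rw [Matrix.mulVec_mulVec, Matrix.mul_adjugate, Matrix.smul_mulVec, Matrix.one_mulVec]

theorem mul_smul_left (c : I3 → ℂ) (a : ℂ) (u v : Fin 6 → ℂ) :
    mul c (a • u) v = a • mul c u v := by
  simp [← mulL_apply]

theorem mul_smul_right (c : I3 → ℂ) (a : ℂ) (u v : Fin 6 → ℂ) :
    mul c u (a • v) = a • mul c u v := by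
  simp [← mulL_apply]

theorem leib_nrm {c : I3 → ℂ} (h : LeibP c) : LeibP (nrm c) := by
  intro u v w
  simp only [mul_nrm, T_adj, mul_smul_left, mul_smul_right]
  rw [h, smul_add, Matrix.mulVec_add]

theorem n2_of_nrm {c : I3 → ℂ} (hd : (T c).det ≠ 0) (h : N2 (nrm c)) : N2 c := by
  have hs : ∀ x : Fin 6 → ℂ, ∃ y, T c *ᵥ y = x := fun x =>
    ⟨(T c).adjugate *ᵥ ((T c).det⁻¹ • x), by rw [T_adj, smul_smul, mul_inv_cancel₀ hd, one_smul]⟩
  intro u v w
  obtain ⟨u, rfl⟩ := hs u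
  obtain ⟨v, rfl⟩ := hs v
  obtain ⟨w, rfl⟩ := hs w
  obtain ⟨h1, h2⟩ := h u v w
  simp only [mul_nrm, T_adj, mul_smul_left, mul_smul_right] at h1 h2
  have h1' := congrArg (fun x => T c *ᵥ x) h1
  have h2' := congrArg (fun x => T c *ᵥ x) h2
  simp only [T_adj, Matrix.mulVec_zero, smul_eq_zero, hd, false_or] at h1' h2'
  exact ⟨h1', h2'⟩

theorem nrm_apply (c : I3 → ℂ) (i j k : Fin 6) :
    nrm c (i, j, k) =
      ((T c).adjugate *ᵥ mul c (T c *ᵥ Pi.single i 1) (T c *ᵥ Pi.single j 1)) k := by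
  rw [← mul_nrm, mul_single]

theorem T_single (c : I3 → ℂ) (i : Fin 6) (h4 : i ≠ 4) (h5 : i ≠ 5) :
    T c *ᵥ Pi.single i 1 = Pi.single i 1 := by
  funext a
  simp [T, h4, h5, Pi.single_apply]

theorem adj_T (c : I3 → ℂ) (x : Fin 6 → ℂ) : (T c).adjugate *ᵥ (T c *ᵥ x) = (T c).det • x := by
  rw [Matrix.mulVec_mulVec, Matrix.adjugate_mul, Matrix.smul_mulVec, Matrix.one_mulVec]

theorem nrm_21 (c : I3 → ℂ) (k : Fin 6) (hk : k ≠ 4) : nrm c (2, 1, k) = 0 := by
  rw [nrm_apply, T_single c 2 (by decide) (by decide), T_single c 1 (by decide) (by decide)]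
  have : mul c (Pi.single 2 1) (Pi.single 1 1) = T c *ᵥ Pi.single 4 1 := by
    funext a
    simp [mul_single, T]
  rw [this, adj_T]
  simp [hk]

theorem nrm_11 (c : I3 → ℂ) (k : Fin 6) (hk : k ≠ 5) : nrm c (1, 1, k) = 0 := by
  rw [nrm_apply, T_single c 1 (by decide) (by decide)]
  have : mul c (Pi.single 1 1) (Pi.single 1 1) = T c *ᵥ Pi.single 5 1 := by
    funext a
    simp [mul_single, T]
  rw [this, adj_T]
  simp [hk]

theorem T_bz : T bz = 1 := by
  ext a i
  fin_cases a <;> fin_cases i <;> simp (decide := true) [T, bz]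

theorem nrm_bz : nrm bz = bz := by
  funext ⟨i, j, k⟩
  rw [nrm_apply, T_bz, Matrix.adjugate_one, Matrix.one_mulVec, Matrix.one_mulVec,
    Matrix.one_mulVec, mul_single]

theorem poly_T (a i : Fin 6) : IsPoly fun c => T c a i :=
  IsPoly.ite _ (IsPoly.coord _) (IsPoly.ite _ (IsPoly.coord _) (IsPoly.const _))

theorem poly_mul {u v : (I3 → ℂ) → Fin 6 → ℂ} (hu : ∀ i, IsPoly fun c => u c i)
    (hv : ∀ i, IsPoly fun c => v c i) (k : Fin 6) : IsPoly fun c => mul c (u c) (v c) k :=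
  IsPoly.sum fun i => IsPoly.sum fun j => ((hu i).mul (hv j)).mul (IsPoly.coord _)

theorem poly_nrm (t : I3) : IsPoly fun c => nrm c t := by
  obtain ⟨i, j, k⟩ := t
  simp only [nrm_apply]
  have hT : ∀ (i a : Fin 6), IsPoly fun c => (T c *ᵥ Pi.single i 1) a := by
    intro i a
    simp only [Matrix.mulVec_single_one, Matrix.col_apply]
    exact poly_T a i
  have h := IsPoly.sum fun l => (IsPoly.adj poly_T k l).mul (poly_mul (hT i) (hT j) l)
  simp only [Matrix.mulVec, dotProduct] at h ⊢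
  exact h

/-- the part of type `V ⊗ V → W` -/
def top (c : I3 → ℂ) : I3 → ℂ :=
  fun t => if t.1.val < 4 ∧ t.2.1.val < 4 ∧ 4 ≤ t.2.2.val then c t else 0

theorem top_bz : top bz = bz := by
  funext ⟨i, j, k⟩
  fin_cases i <;> fin_cases j <;> fin_cases k <;> simp (decide := true) [top, bz]

theorem top_mul_top (c : I3 → ℂ) (a b k l d : Fin 6) :
    top c (a, k, l) * top c (b, d, k) = 0 ∧ top c (k, a, l) * top c (b, d, k) = 0 := by
  by_cases hk : k.val < 4
  · have : top c (b, d, k) = 0 := by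
      simp only [top]
      rw [if_neg (by omega)]
    simp [this]
  · have h1 : top c (a, k, l) = 0 := by
      simp only [top]
      rw [if_neg (by omega)]
    have h2 : top c (k, a, l) = 0 := by
      simp only [top]
      rw [if_neg (by omega)]
    simp [h1, h2]

theorem Lb_top (c : I3 → ℂ) (a b d l : Fin 6) : Lb (top c) (top c) a b d l = 0 := by
  refine Finset.sum_eq_zero fun k _ => ?_
  rw [(top_mul_top c a b k l d).1, (top_mul_top c d a k l b).2, (top_mul_top c b a k l d).1]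
  ring

theorem n2_top (c : I3 → ℂ) : N2 (top c) := by
  intro u v w
  constructor
  · funext l
    simp only [mul, Pi.zero_apply, Finset.mul_sum, Finset.sum_mul]
    refine Finset.sum_eq_zero fun i _ => Finset.sum_eq_zero fun k _ =>
      Finset.sum_eq_zero fun b _ => Finset.sum_eq_zero fun d _ => ?_
    linear_combination (u i * v b * w d) * (top_mul_top c i b k l d).1
  · funext l
    simp only [mul, Pi.zero_apply, Finset.mul_sum, Finset.sum_mul]
    refine Finset.sum_eq_zero fun k _ => Finset.sum_eq_zero fun i _ =>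
      Finset.sum_eq_zero fun b _ => Finset.sum_eq_zero fun d _ => ?_
    linear_combination (w i * u b * v d) * (top_mul_top c i b k l d).2

/-- the linearised system -/
def Gl (c : I3 → ℂ) : (I3 → ℂ) →ₗ[ℂ] ((Fin 6 × I3) ⊕ I3 → ℂ) where
  toFun η := Sum.elim
    (fun r => Lb (top c) η r.1 r.2.1 r.2.2.1 r.2.2.2 + Lb η c r.1 r.2.1 r.2.2.1 r.2.2.2)
    (fun t => if bad t = true then η t else 0)
  map_add' η η' := by
    funext r
    rcases r with r | t
    · simp only [Sum.elim_inl, Pi.add_apply, Lb, ← Finset.sum_add_distrib]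
      exact Finset.sum_congr rfl fun k _ => by ring
    · simp only [Sum.elim_inr, Pi.add_apply]
      split_ifs <;> simp
  map_smul' a η := by
    funext r
    rcases r with r | t
    · simp only [Sum.elim_inl, Pi.smul_apply, Lb, ← Finset.sum_add_distrib, smul_eq_mul,
        RingHom.id_apply, Finset.mul_sum]
      exact Finset.sum_congr rfl fun k _ => by ring
    · simp only [Sum.elim_inr, Pi.smul_apply, RingHom.id_apply]
      split_ifs <;> simp

theorem Gl_bz : LinearMap.ker (Gl bz) = ⊥ := by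
  refine LinearMap.ker_eq_bot'.2 fun η h => inj η (fun t ht => ?_) fun a b d l => ?_
  · have := congrFun h (Sum.inr t)
    simpa [Gl, ht] using this
  · have := congrFun h (Sum.inl (a, b, d, l))
    simpa [Gl, top_bz] using this

theorem poly_Gl (η : I3 → ℂ) (r : (Fin 6 × I3) ⊕ I3) : IsPoly fun c => Gl c η r := by
  have ht : ∀ t, IsPoly fun c => top c t := fun t =>
    IsPoly.ite _ (IsPoly.coord _) (IsPoly.const _)
  rcases r with r | t
  · refine IsPoly.add (IsPoly.sum fun k => ?_) (IsPoly.sum fun k => ?_)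
    · exact (((ht _).mul (IsPoly.const _)).sub ((ht _).mul (IsPoly.const _))).sub
        ((ht _).mul (IsPoly.const _))
    · exact (((IsPoly.const _).mul (IsPoly.coord _)).sub
        ((IsPoly.const _).mul (IsPoly.coord _))).sub ((IsPoly.const _).mul (IsPoly.coord _))
  · exact IsPoly.const _

theorem Gl_rest {c : I3 → ℂ} (h : LeibP c) : Gl (nrm c) (nrm c - top (nrm c)) = 0 := by
  funext r
  rcases r with ⟨a, b, d, l⟩ | ⟨i, j, k⟩
  · have h1 := Lb_self (leib_nrm h) a b d l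
    have h2 := Lb_top (nrm c) a b d l
    change Lb (top (nrm c)) (nrm c - top (nrm c)) a b d l +
      Lb (nrm c - top (nrm c)) (nrm c) a b d l = 0
    have : Lb (top (nrm c)) (nrm c - top (nrm c)) a b d l +
        Lb (nrm c - top (nrm c)) (nrm c) a b d l =
        Lb (nrm c) (nrm c) a b d l - Lb (top (nrm c)) (top (nrm c)) a b d l := by
      simp only [Lb, Pi.sub_apply, ← Finset.sum_add_distrib, ← Finset.sum_sub_distrib]
      exact Finset.sum_congr rfl fun k _ => by ring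
    rw [this, h1, h2, sub_zero]
  · change (if bad (i, j, k) = true then (nrm c - top (nrm c)) (i, j, k) else 0) = 0
    split_ifs with hb
    · simp only [Pi.sub_apply, top]
      split_ifs with ht
      · simp
      · simp only [bad, Bool.or_eq_true, Bool.and_eq_true, decide_eq_true_eq, beq_iff_eq] at hb
        rcases hb with (hb | ⟨rfl, rfl⟩) | ⟨rfl, rfl⟩
        · exact absurd ⟨hb.1.1, hb.1.2, hb.2⟩ ht
        · rw [nrm_21 c k, sub_zero]
          rintro rfl
          exact ht (by decide)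
        · rw [nrm_11 c k, sub_zero]
          rintro rfl
          exact ht (by decide)
    · rfl

/-- A Zariski neighbourhood of the base point in the Leibniz variety consists of two-step
nilpotent algebras. -/
theorem exists_g : ∃ g : (I3 → ℂ) → ℂ, IsPoly g ∧ g bz ≠ 0 ∧
    ∀ c, LeibP c → g c ≠ 0 → N2 c := by
  obtain ⟨K, hK⟩ := LinearMap.exists_leftInverse_of_injective (Gl bz) Gl_bz
  refine ⟨fun c => (T c).det * (LinearMap.toMatrix' (K ∘ₗ Gl (nrm c))).det, ?_, ?_, ?_⟩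
  · refine (IsPoly.det poly_T).mul ?_
    refine IsPoly.comp (f := fun c => (LinearMap.toMatrix' (K ∘ₗ Gl c)).det) ?_ poly_nrm
    refine IsPoly.det fun s t => ?_
    simp only [LinearMap.toMatrix'_comp, Matrix.mul_apply]
    refine IsPoly.sum fun r => (IsPoly.const _).mul ?_
    simp only [LinearMap.toMatrix'_apply]
    exact poly_Gl _ r
  · simp only [nrm_bz, T_bz, hK, LinearMap.toMatrix'_id, Matrix.det_one]
    simp
  · intro c hc hg
    obtain ⟨h1, h2⟩ := mul_ne_zero_iff.1 hg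
    refine n2_of_nrm h1 ?_
    have h3 : LinearMap.toMatrix' (K ∘ₗ Gl (nrm c)) *ᵥ (nrm c - top (nrm c)) = 0 := by
      rw [LinearMap.toMatrix'_mulVec, LinearMap.comp_apply, Gl_rest hc, map_zero]
    have h4 : nrm c - top (nrm c) = 0 := Matrix.eq_zero_of_mulVec_eq_zero h2 h3
    rw [sub_eq_zero.1 h4]
    exact n2_top _

/-- Zariski closed sets -/
def Cl (Z : Set (I3 → ℂ)) : Prop :=
  ∃ S : Set (MvPolynomial I3 ℂ), Z = {c | ∀ p ∈ S, eval c p = 0}

/-- irreducible closed sets -/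
def Irr (Z : Set (I3 → ℂ)) : Prop :=
  Cl Z ∧ Z.Nonempty ∧ ∀ A B : Set (I3 → ℂ), Cl A → Cl B → Z ⊆ A ∪ B → (Z ⊆ A ∨ Z ⊆ B)

theorem cl_of_poly {α : Type} (f : α → (I3 → ℂ) → ℂ) (hf : ∀ a, IsPoly (f a)) :
    Cl {c | ∀ a, f a c = 0} := by
  choose p hp using hf
  refine ⟨Set.range p, ?_⟩
  ext c
  simp [hp]

theorem cl_leib : Cl {c | LeibP c} := by
  have := cl_of_poly (α := (Fin 6 → ℂ) × (Fin 6 → ℂ) × (Fin 6 → ℂ) × Fin 6)
    (fun a c => mul c a.1 (mul c a.2.1 a.2.2.1) a.2.2.2 -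
      (mul c (mul c a.1 a.2.1) a.2.2.1 a.2.2.2 + mul c a.2.1 (mul c a.1 a.2.2.1) a.2.2.2))
    (fun a => by
      have hc : ∀ x : Fin 6 → ℂ, ∀ i, IsPoly fun _ : I3 → ℂ => x i := fun x i => IsPoly.const _
      exact (poly_mul (hc _) (poly_mul (hc _) (hc _)) _).sub
        ((poly_mul (poly_mul (hc _) (hc _)) (hc _) _).add
          (poly_mul (hc _) (poly_mul (hc _) (hc _)) _)))
  convert this using 3 with c
  constructor
  · intro h a
    rw [h]
    simp
  · intro h u v w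
    funext k
    exact sub_eq_zero.1 (h (u, v, w, k))

theorem cl_n2 : Cl {c | N2 c} := by
  have := cl_of_poly (α := Bool × (Fin 6 → ℂ) × (Fin 6 → ℂ) × (Fin 6 → ℂ) × Fin 6)
    (fun a c => if a.1 = true then mul c a.2.1 (mul c a.2.2.1 a.2.2.2.1) a.2.2.2.2 else
      mul c (mul c a.2.1 a.2.2.1) a.2.2.2.1 a.2.2.2.2)
    (fun a => by
      have hc : ∀ x : Fin 6 → ℂ, ∀ i, IsPoly fun _ : I3 → ℂ => x i := fun x i => IsPoly.const _
      exact IsPoly.ite _ (poly_mul (hc _) (poly_mul (hc _) (hc _)) _)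
        (poly_mul (poly_mul (hc _) (hc _)) (hc _) _))
  convert this using 3 with c
  constructor
  · intro h a
    split_ifs
    · rw [(h _ _ _).1]
      rfl
    · rw [(h _ _ _).2]
      rfl
  · intro h u v w
    constructor
    · funext k
      simpa using h (true, u, v, w, k)
    · funext k
      simpa using h (false, u, v, w, k)

theorem irr_single (b : I3 → ℂ) : Irr {b} := by
  refine ⟨?_, Set.singleton_nonempty _, fun A B _ _ h => ?_⟩
  · have := cl_of_poly (fun t c => c t - b t) fun t => (IsPoly.coord t).sub (IsPoly.const _)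
    convert this using 1
    ext c
    simp [funext_iff, sub_eq_zero]
  · simpa using h

theorem exists_component {L : Set (I3 → ℂ)} (hL : Cl L) {b : I3 → ℂ} (hb : b ∈ L) :
    ∃ Z, Irr Z ∧ b ∈ Z ∧ Z ⊆ L ∧ ∀ Z', Irr Z' → Z ⊆ Z' → Z' ⊆ L → Z' = Z := by
  have hcl : ∀ (U A : Set (I3 → ℂ)), Cl A → U ⊆ A →
      {c | ∀ p ∈ {p : MvPolynomial I3 ℂ | ∀ x ∈ U, eval x p = 0}, eval c p = 0} ⊆ A := by
    rintro U A ⟨S, rfl⟩ hU c hc p hp
    exact hc p fun x hx => hU hx p hp
  obtain ⟨Z, hbZ, hZ⟩ := zorn_subset_nonempty {Z | Irr Z ∧ Z ⊆ L} (fun C hC hch hne => by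
    refine ⟨{c | ∀ p ∈ {p : MvPolynomial I3 ℂ | ∀ x ∈ ⋃₀ C, eval x p = 0}, eval c p = 0},
      ⟨⟨⟨_, rfl⟩, ?_, ?_⟩, ?_⟩, ?_⟩
    · obtain ⟨Z, hZ⟩ := hne
      obtain ⟨x, hx⟩ := (hC hZ).1.2.1
      exact ⟨x, fun p hp => hp x ⟨Z, hZ, hx⟩⟩
    · intro A B hA hB hAB
      have hsub : ∀ Z ∈ C, Z ⊆ A ∨ Z ⊆ B := fun Z hZ =>
        (hC hZ).1.2.2 A B hA hB fun x hx => hAB fun p hp => hp x ⟨Z, hZ, hx⟩
      by_cases h : ∀ Z ∈ C, Z ⊆ A
      · exact Or.inl (hcl _ A hA (Set.sUnion_subset h))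
      · push Not at h
        obtain ⟨Z₁, hZ₁, hn⟩ := h
        refine Or.inr (hcl _ B hB (Set.sUnion_subset fun Z hZ => ?_))
        rcases hch.total hZ hZ₁ with h | h
        · exact h.trans ((hsub Z₁ hZ₁).resolve_left hn)
        · exact (hsub Z hZ).resolve_left fun h' => hn (h.trans h')
    · exact hcl _ L hL (Set.sUnion_subset fun Z hZ => (hC hZ).2)
    · intro Z hZ x hx p hp
      exact hp x ⟨Z, hZ, hx⟩) {b} ⟨irr_single b, by simpa using hb⟩
  exact ⟨Z, hZ.1.1, hbZ rfl, hZ.1.2, fun Z' h1 h2 h3 => (hZ.eq_of_subset ⟨h1, h3⟩ h2).symm⟩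

theorem leib_of_n2 {c : I3 → ℂ} (h : N2 c) : LeibP c := by
  intro u v w
  rw [(h _ _ _).1, (h _ _ _).1, (h _ _ _).2, add_zero]

/-- An irreducible component of the variety of six-dimensional Leibniz algebras consisting of
two-step nilpotent algebras. -/
theorem main : ∃ Z, Irr Z ∧ (∀ c ∈ Z, LeibP c) ∧
    (∀ Z', Irr Z' → Z ⊆ Z' → (∀ c ∈ Z', LeibP c) → Z' = Z) ∧ ∀ c ∈ Z, N2 c := by
  have hb : LeibP bz := leib_of_n2 (top_bz ▸ n2_top bz)
  obtain ⟨Z, hZ, hbZ, hL, hmax⟩ := exists_component cl_leib (b := bz) hb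
  obtain ⟨g, hg, hg0, hgn⟩ := exists_g
  refine ⟨Z, hZ, fun c hc => hL hc, fun Z' h1 h2 h3 => hmax Z' h1 h2 h3, ?_⟩
  have hA := cl_of_poly (fun _ : Unit => g) fun _ => hg
  rcases hZ.2.2 _ _ hA cl_n2 (fun c hc => by
    by_cases h : g c = 0
    · exact Or.inl fun _ => h
    · exact Or.inr (hgn c (hL hc) h)) with h | h
  · exact absurd (h hbZ ()) hg0
  · exact fun c hc => h hc

theorem filt {c : I3 → ℂ} (h : N2 c) : ∃ V : ℕ → Submodule ℂ (Fin 6 → ℂ),
    Monotone V ∧ V 0 = ⊥ ∧ (∃ m : ℕ, V m = ⊤) ∧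
      ∀ (k : ℕ) (u v : Fin 6 → ℂ), v ∈ V (k + 1) → (mul c u v ∈ V k ∧ mul c v u ∈ V k) := by
  let A : Submodule ℂ (Fin 6 → ℂ) := LinearMap.ker (mulL c) ⊓ LinearMap.ker (mulL c).flip
  have hA : ∀ v, v ∈ A ↔ (∀ u, mul c v u = 0) ∧ ∀ u, mul c u v = 0 := by
    intro v
    simp [A, LinearMap.ext_iff, mulL_apply]
  refine ⟨fun k => if k = 0 then ⊥ else if k = 1 then A else ⊤, ?_, by simp, ⟨2, by simp⟩, ?_⟩
  · refine monotone_nat_of_le_succ fun k => ?_
    rcases k with _ | _ | k <;> simp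
  · intro k u v hv
    rcases k with _ | _ | k
    · simp only [zero_add, one_ne_zero, if_false, if_true] at hv ⊢
      rw [hA] at hv
      simp [hv.1, hv.2]
    · simp only [zero_add, one_ne_zero, if_false, if_true]
      rw [hA, hA]
      exact ⟨⟨fun w => (h _ _ _).2, fun w => (h _ _ _).1⟩, fun w => (h _ _ _).2,
        fun w => (h _ _ _).1⟩
    · simp

end Pool.Agent.H502Z.Leib
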